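import Mathlib
import Pool.Agent.Helper5.Polynormed

/-!
Amenability of polynormed algebras and bounded right approximate identities in the diagonal
ideal of the enveloping algebra.
-/

namespace Pool.Agent.Helper5

open Filter Topology

universe u

/-- A polynormed algebra: a complete Hausdorff locally convex algebra over `ℂ`, not necessarily
unital, with jointly continuous multiplication. -/
class IsPolyAlg (A : Type u) [NonUnitalRing A] [Module ℂ A] [UniformSpace A] : Prop
    extends IsPolynormed A where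
  mul_bilin : IsContBilin (fun a b : A => a * b)

/-- An Arens-Michael algebra: a polynormed algebra whose topology is given by a family of
submultiplicative seminorms. -/
def IsArensMichael (A : Type u) [NonUnitalRing A] [Module ℂ A] [UniformSpace A] : Prop :=
  IsPolyAlg A ∧ ∃ (κ : Type u) (_ : Nonempty κ) (p : κ → Seminorm ℂ A),
    WithSeminorms p ∧ ∀ i a b, p i (a * b) ≤ p i a * p i b

/-- `X` with left action `l` and right action `r` of `A` is an `A`-bimodule with jointly
continuous actions. -/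
structure IsBimod {A : Type u} [NonUnitalRing A] [Module ℂ A] [UniformSpace A]
    {X : Type u} [AddCommGroup X] [Module ℂ X] [UniformSpace X]
    (l : A → X → X) (r : X → A → X) : Prop where
  left_bilin : IsContBilin l
  right_bilin : IsContBilin r
  left_mul : ∀ a b x, l (a * b) x = l a (l b x)
  right_mul : ∀ x a b, r x (a * b) = r (r x a) b
  left_right : ∀ a x b, r (l a x) b = l a (r x b)

/-- `C₁ = X ⊗̂ A`, `C₂ = (X ⊗̂ A) ⊗̂ A` and the maps `d₀ : C₁ → X`, `d₁ : C₂ → C₁` form the
beginning of the standard complex of the bimodule `X`. -/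
structure IsStdComplex {A : Type u} [NonUnitalRing A] [Module ℂ A] [UniformSpace A]
    {X : Type u} [AddCommGroup X] [Module ℂ X] [UniformSpace X]
    (l : A → X → X) (r : X → A → X)
    {C₁ : Type u} [AddCommGroup C₁] [Module ℂ C₁] [UniformSpace C₁]
    {C₂ : Type u} [AddCommGroup C₂] [Module ℂ C₂] [UniformSpace C₂]
    (t₁ : X → A → C₁) (t₂ : C₁ → A → C₂) (d₀ : C₁ → X) (d₁ : C₂ → C₁) : Prop where
  tensor₁ : IsProjTensor t₁
  tensor₂ : IsProjTensor t₂
  lin₀ : IsContLin d₀
  lin₁ : IsContLin d₁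
  d₀_apply : ∀ x a, d₀ (t₁ x a) = r x a - l a x
  d₁_apply : ∀ x a b, d₁ (t₂ (t₁ x a) b) = t₁ (r x a) b - t₁ x (a * b) + t₁ (l b x) a

/-- Amenability: for every bimodule `X`, the first homology vanishes and the image of `d₀` is
closed. -/
def Amenable (A : Type u) [NonUnitalRing A] [Module ℂ A] [UniformSpace A] : Prop :=
  ∀ (X : Type u) [AddCommGroup X] [Module ℂ X] [UniformSpace X] [IsPolynormed X]
    (l : A → X → X) (r : X → A → X), IsBimod l r →
    ∀ (C₁ : Type u) [AddCommGroup C₁] [Module ℂ C₁] [UniformSpace C₁] [IsPolynormed C₁]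
      (C₂ : Type u) [AddCommGroup C₂] [Module ℂ C₂] [UniformSpace C₂] [IsPolynormed C₂]
      (t₁ : X → A → C₁) (t₂ : C₁ → A → C₂) (d₀ : C₁ → X) (d₁ : C₂ → C₁),
      IsStdComplex l r t₁ t₂ d₀ d₁ →
        (∀ z, d₀ z = 0 → ∃ w, d₁ w = z) ∧ IsClosed (Set.range d₀)

/-- The multiplication of the unitization `A₊ = ℂ × A`. -/
def plusMul {A : Type u} [NonUnitalRing A] [Module ℂ A] (x y : ℂ × A) : ℂ × A :=
  (x.1 * y.1, x.1 • y.2 + y.1 • x.2 + x.2 * y.2)

/-- `E` with the tensor map `t` and the multiplication `mul` is the enveloping algebra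
`A₊ ⊗̂ A₊ᵒᵖ`, and `π : E → A₊` is the map `a ⊗ b ↦ a b`. -/
structure IsEnv {A : Type u} [NonUnitalRing A] [Module ℂ A] [UniformSpace A]
    {E : Type u} [AddCommGroup E] [Module ℂ E] [UniformSpace E]
    (t : ℂ × A → ℂ × A → E) (mul : E → E → E) (π : E → ℂ × A) : Prop where
  tensor : IsProjTensor t
  mul_bilin : IsContBilin mul
  mul_apply : ∀ a b c d, mul (t a b) (t c d) = t (plusMul a c) (plusMul d b)
  π_lin : IsContLin π
  π_apply : ∀ a b, π (t a b) = plusMul a b

/-- The diagonal ideal `I^△ = ker π` of the enveloping algebra has a bounded right approximate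
identity. -/
def HasDiagonalBRAI (A : Type u) [NonUnitalRing A] [Module ℂ A] [UniformSpace A] : Prop :=
  ∃ (E : Type u) (_ : AddCommGroup E) (_ : Module ℂ E) (_ : UniformSpace E)
    (_ : IsPolynormed E) (t : ℂ × A → ℂ × A → E) (mul : E → E → E) (π : E → ℂ × A),
    IsEnv t mul π ∧
    ∃ (ι : Type u) (_ : Preorder ι) (_ : Nonempty ι) (_ : IsDirectedOrder ι) (e : ι → E),
      (∀ ν, π (e ν) = 0) ∧ Bornology.IsVonNBounded ℂ (Set.range e) ∧
      ∀ x, π x = 0 → Tendsto (fun ν => mul x (e ν)) atTop (𝓝 x)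

end Pool.Agent.Helper5
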