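import Mathlib
import Pool.Agent.Helper5.Polynormed
import Pool.Agent.Helper5.Compl

/-!
Construction of the completed projective tensor product of two locally convex spaces.
-/

namespace Pool.Agent.Helper5

open scoped TensorProduct
open Filter Topology

universe u v w u'

noncomputable section

/-- The algebraic tensor product, to be given the projective topology. -/
def AlgT (X : Type u) (Y : Type v) [AddCommGroup X] [Module ℂ X] [AddCommGroup Y]
    [Module ℂ Y] : Type (max u v) := X ⊗[ℂ] Y

section Alg

variable (X : Type u) (Y : Type v) [AddCommGroup X] [Module ℂ X] [AddCommGroup Y] [Module ℂ Y]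

instance : AddCommGroup (AlgT X Y) := inferInstanceAs (AddCommGroup (X ⊗[ℂ] Y))

instance : Module ℂ (AlgT X Y) := inferInstanceAs (Module ℂ (X ⊗[ℂ] Y))

variable {X Y}

/-- Elementary tensors. -/
def tm (x : X) (y : Y) : AlgT X Y := x ⊗ₜ[ℂ] y

lemma tm_add_left (x x' : X) (y : Y) : tm (x + x') y = tm x y + tm x' y :=
  TensorProduct.add_tmul x x' y

lemma tm_add_right (x : X) (y y' : Y) : tm x (y + y') = tm x y + tm x y' :=
  TensorProduct.tmul_add x y y'

lemma tm_smul_left (c : ℂ) (x : X) (y : Y) : tm (c • x) y = c • tm x y := rfl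

lemma tm_smul_right (c : ℂ) (x : X) (y : Y) : tm x (c • y) = c • tm x y :=
  TensorProduct.tmul_smul c x y

lemma algT_induction {P : AlgT X Y → Prop} (z : AlgT X Y) (zero : P 0)
    (tmul : ∀ x y, P (tm x y)) (add : ∀ a b, P a → P b → P (a + b)) : P z :=
  TensorProduct.induction_on z zero tmul add

/-- Linear extension of bilinear maps. -/
def algLift {Z : Type w} [AddCommGroup Z] [Module ℂ Z] (f : X →ₗ[ℂ] Y →ₗ[ℂ] Z) :
    AlgT X Y →ₗ[ℂ] Z := TensorProduct.lift f

@[simp] lemma algLift_tm {Z : Type w} [AddCommGroup Z] [Module ℂ Z] (f : X →ₗ[ℂ] Y →ₗ[ℂ] Z)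
    (x : X) (y : Y) : algLift f (tm x y) = f x y := TensorProduct.lift.tmul x y

/-- Seminorms dominated on elementary tensors by `p ⊗ q`. -/
def domSet (p : Seminorm ℂ X) (q : Seminorm ℂ Y) : Set (Seminorm ℂ (AlgT X Y)) :=
  {R | ∀ x y, R (tm x y) ≤ p x * q y}

lemma domSet_nonempty (p : Seminorm ℂ X) (q : Seminorm ℂ Y) : (domSet p q).Nonempty :=
  ⟨0, fun x y => by simpa using mul_nonneg (apply_nonneg p x) (apply_nonneg q y)⟩

lemma domSet_bdd (p : Seminorm ℂ X) (q : Seminorm ℂ Y) : BddAbove (domSet p q) := by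
  rw [Seminorm.bddAbove_iff]
  have : ∀ z : AlgT X Y, ∃ K : ℝ, ∀ R ∈ domSet p q, R z ≤ K := by
    intro z
    refine algT_induction (P := fun z => ∃ K : ℝ, ∀ R ∈ domSet p q, R z ≤ K) z
      ⟨0, fun R _ => by simp⟩ (fun x y => ⟨p x * q y, fun R hR => hR x y⟩) ?_
    rintro a b ⟨K, hK⟩ ⟨L, hL⟩
    exact ⟨K + L, fun R hR => (map_add_le_add R a b).trans (add_le_add (hK R hR) (hL R hR))⟩
  choose K hK using this
  refine ⟨K, ?_⟩
  rintro f ⟨R, hR, rfl⟩
  intro z
  exact hK z R hR

/-- The projective tensor product of two seminorms. -/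
def pSemi (p : Seminorm ℂ X) (q : Seminorm ℂ Y) : Seminorm ℂ (AlgT X Y) := sSup (domSet p q)

lemma pSemi_tm_le (p : Seminorm ℂ X) (q : Seminorm ℂ Y) (x : X) (y : Y) :
    pSemi p q (tm x y) ≤ p x * q y := by
  rw [pSemi, Seminorm.sSup_apply (domSet_bdd p q)]
  have := (domSet_nonempty p q).to_subtype
  exact ciSup_le fun R => R.2 x y

lemma le_pSemi {p : Seminorm ℂ X} {q : Seminorm ℂ Y} {R : Seminorm ℂ (AlgT X Y)}
    (hR : ∀ x y, R (tm x y) ≤ p x * q y) : R ≤ pSemi p q :=
  le_csSup (domSet_bdd p q) hR

lemma pSemi_mono {p p' : Seminorm ℂ X} {q q' : Seminorm ℂ Y} (hp : p ≤ p') (hq : q ≤ q') :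
    pSemi p q ≤ pSemi p' q' :=
  le_pSemi fun x y => (pSemi_tm_le p q x y).trans
    (mul_le_mul (hp x) (hq y) (apply_nonneg q y) (apply_nonneg p' x))

lemma le_mul_pSemi {p : Seminorm ℂ X} {q : Seminorm ℂ Y} {R : Seminorm ℂ (AlgT X Y)} {c : ℝ}
    (hc : 0 ≤ c) (hR : ∀ x y, R (tm x y) ≤ c * (p x * q y)) (z : AlgT X Y) :
    R z ≤ c * pSemi p q z := by
  have h : R ≤ pSemi ((Real.toNNReal c) • p) q := by
    apply le_pSemi
    intro x y
    have : ((Real.toNNReal c) • p) x = c * p x := by
      rw [smul_apply, NNReal.smul_def, Real.coe_toNNReal _ hc]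
      rfl
    rw [this, mul_assoc]
    exact hR x y
  rcases hc.eq_or_lt with rfl | hc'
  · refine algT_induction (P := fun z => R z ≤ 0 * pSemi p q z) z (by simp) ?_ ?_
    · intro x y
      simpa using hR x y
    · intro a b ha hb
      simp only [zero_mul] at ha hb ⊢
      exact (map_add_le_add R a b).trans (by linarith)
  · have h2 : ((Real.toNNReal c⁻¹) • R) ≤ pSemi p q := by
      apply le_pSemi
      intro x y
      have : ((Real.toNNReal c⁻¹) • R) (tm x y) = c⁻¹ * R (tm x y) := by
        rw [smul_apply, NNReal.smul_def, Real.coe_toNNReal _ (inv_pos.2 hc').le]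
        rfl
      rw [this, inv_mul_le_iff₀ hc']
      exact hR x y
    have h3 := h2 z
    have : ((Real.toNNReal c⁻¹) • R) z = c⁻¹ * R z := by
      rw [smul_apply, NNReal.smul_def, Real.coe_toNNReal _ (inv_pos.2 hc').le]
      rfl
    rw [this, inv_mul_le_iff₀ hc'] at h3
    exact h3

end Alg

section Top

variable (X : Type u) (Y : Type v) [AddCommGroup X] [Module ℂ X] [TopologicalSpace X]
  [AddCommGroup Y] [Module ℂ Y] [TopologicalSpace Y]

/-- Pairs of continuous seminorms. -/
abbrev CS (X : Type u) (Y : Type v) [AddCommGroup X] [Module ℂ X] [TopologicalSpace X]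
    [AddCommGroup Y] [Module ℂ Y] [TopologicalSpace Y] : Type (max u v) :=
  {p : Seminorm ℂ X // Continuous p} × {q : Seminorm ℂ Y // Continuous q}

/-- The family of projective seminorms. -/
def pFam : SeminormFamily ℂ (AlgT X Y) (CS X Y) := fun i => pSemi i.1.1 i.2.1

instance : Nonempty (CS X Y) :=
  ⟨⟨⟨0, show Continuous (fun _ : X => (0 : ℝ)) from continuous_const⟩,
    ⟨0, show Continuous (fun _ : Y => (0 : ℝ)) from continuous_const⟩⟩⟩

instance : TopologicalSpace (AlgT X Y) := (pFam X Y).moduleFilterBasis.topology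

lemma algT_withSeminorms : WithSeminorms (pFam X Y) := ⟨rfl⟩

instance : IsTopologicalAddGroup (AlgT X Y) := (algT_withSeminorms X Y).topologicalAddGroup

instance : ContinuousSMul ℂ (AlgT X Y) := (algT_withSeminorms X Y).continuousSMul

instance : PolynormableSpace ℂ (AlgT X Y) := (algT_withSeminorms X Y).toPolynormableSpace

instance : UniformSpace (AlgT X Y) := IsTopologicalAddGroup.rightUniformSpace (AlgT X Y)

instance : IsUniformAddGroup (AlgT X Y) := isUniformAddGroup_of_addCommGroup

instance : UniformContinuousConstSMul ℂ (AlgT X Y) :=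
  uniformContinuousConstSMul_of_continuousConstSMul ℂ (AlgT X Y)

/-- The completed projective tensor product. -/
def PT : Type (max u v) := UniformSpace.Completion (AlgT X Y)

instance : AddCommGroup (PT X Y) :=
  inferInstanceAs (AddCommGroup (UniformSpace.Completion (AlgT X Y)))

instance : Module ℂ (PT X Y) :=
  inferInstanceAs (Module ℂ (UniformSpace.Completion (AlgT X Y)))

instance : UniformSpace (PT X Y) :=
  inferInstanceAs (UniformSpace (UniformSpace.Completion (AlgT X Y)))

instance : IsPolynormed (PT X Y) := isPolynormed_completion (E := AlgT X Y)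

variable {X Y}

/-- Elementary tensors in the completed tensor product. -/
def pt (x : X) (y : Y) : PT X Y := UniformSpace.Completion.coe' (tm x y)

/-- Projective seminorms on the completed tensor product. -/
def ptSemi (p : Seminorm ℂ X) (q : Seminorm ℂ Y) (hp : Continuous p) (hq : Continuous q) :
    Seminorm ℂ (PT X Y) :=
  extSemi (pSemi p q) ((algT_withSeminorms X Y).continuous_seminorm ⟨⟨p, hp⟩, ⟨q, hq⟩⟩)

lemma ptSemi_continuous (p : Seminorm ℂ X) (q : Seminorm ℂ Y) (hp : Continuous p)
    (hq : Continuous q) : Continuous (ptSemi p q hp hq) := extSemi_continuous _ _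

lemma ptSemi_pt_le (p : Seminorm ℂ X) (q : Seminorm ℂ Y) (hp : Continuous p)
    (hq : Continuous q) (x : X) (y : Y) : ptSemi p q hp hq (pt x y) ≤ p x * q y :=
  (extSemi_coe _ _ _).trans_le (pSemi_tm_le p q x y)

end Top

section Lift

variable {X : Type u} {Y : Type v} [AddCommGroup X] [Module ℂ X] [TopologicalSpace X]
  [PolynormableSpace ℂ X] [AddCommGroup Y] [Module ℂ Y] [TopologicalSpace Y]
  [PolynormableSpace ℂ Y]

lemma tm_isContBilin : IsContBilin (tm : X → Y → AlgT X Y) where
  add_left := tm_add_left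
  smul_left := tm_smul_left
  add_right := tm_add_right
  smul_right := tm_smul_right
  cont := by
    refine continuous_of_bound tm_add_left tm_add_right fun r hr => ?_
    obtain ⟨s, C, hC, hs⟩ := Seminorm.bound_of_continuous (algT_withSeminorms X Y) r hr
    let P : Seminorm ℂ X := s.sup (fun i : CS X Y => i.1.1)
    let Q : Seminorm ℂ Y := s.sup (fun i : CS X Y => i.2.1)
    have hX := (PolynormableSpace.withSeminorms ℂ X).topologicalAddGroup
    have hY := (PolynormableSpace.withSeminorms ℂ Y).topologicalAddGroup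
    have hP : Continuous P := Seminorm.continuous_finsetSup (fun i _ => i.1.2)
    have hQ : Continuous Q := Seminorm.continuous_finsetSup (fun i _ => i.2.2)
    refine ⟨C • P, Q, Continuous.const_smul hP _, hQ, fun x y => ?_⟩
    have h1 : s.sup (pFam X Y) ≤ pSemi P Q :=
      Finset.sup_le fun i hi => pSemi_mono
        (Finset.le_sup (f := fun i : CS X Y => (i.1.1 : Seminorm ℂ X)) hi)
        (Finset.le_sup (f := fun i : CS X Y => (i.2.1 : Seminorm ℂ Y)) hi)
    have h2 : r (tm x y) ≤ (C : ℝ) * s.sup (pFam X Y) (tm x y) := hs (tm x y)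
    have h3 : (C • P) x = (C : ℝ) * P x := rfl
    rw [h3, mul_assoc]
    exact h2.trans (mul_le_mul_of_nonneg_left ((h1 _).trans (pSemi_tm_le P Q x y)) C.2)

lemma pt_isContBilin : IsContBilin (pt : X → Y → PT X Y) where
  add_left x x' y := by
    unfold pt
    rw [tm_add_left]
    exact UniformSpace.Completion.coe_add _ _
  smul_left c x y := by
    unfold pt
    rw [tm_smul_left]
    exact UniformSpace.Completion.coe_smul _ _
  add_right x y y' := by
    unfold pt
    rw [tm_add_right]
    exact UniformSpace.Completion.coe_add _ _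
  smul_right c x y := by
    unfold pt
    rw [tm_smul_right]
    exact UniformSpace.Completion.coe_smul _ _
  cont := (UniformSpace.Completion.continuous_coe (AlgT X Y)).comp tm_isContBilin.cont

variable {Z : Type w} [AddCommGroup Z] [Module ℂ Z] [UniformSpace Z] [IsPolynormed Z]

/-- Bilinear maps on the algebraic tensor product with estimates are continuous. -/
lemma algLift_continuous {β : X → Y → Z} (h : IsContBilin β) : Continuous (algLift h.toLin) := by
  apply continuous_lin_of_bound (map_add _)
  intro r hr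
  obtain ⟨p, q, hp, hq, hb⟩ := h.exists_bound r hr
  refine ⟨pSemi p q, (algT_withSeminorms X Y).continuous_seminorm ⟨⟨p, hp⟩, ⟨q, hq⟩⟩, fun x => ?_⟩
  have : r.comp (algLift h.toLin) ≤ pSemi p q := by
    apply le_pSemi
    intro x y
    simpa using hb x y
  exact this x

/-- The continuous linear map on the completed tensor product given by a continuous bilinear
map. -/
def ptLift {β : X → Y → Z} (h : IsContBilin β) : PT X Y →L[ℂ] Z :=
  have : UniformContinuousConstSMul ℂ Z := uniformContinuousConstSMul_of_continuousConstSMul ℂ Z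
  ContinuousLinearMap.fromCompletion
    (⟨algLift h.toLin, algLift_continuous h⟩ : AlgT X Y →L[ℂ] Z)

lemma ptLift_coe {β : X → Y → Z} (h : IsContBilin β) (z : AlgT X Y) :
    ptLift h (UniformSpace.Completion.coe' z : PT X Y) = algLift h.toLin z := by
  have : UniformContinuousConstSMul ℂ Z := uniformContinuousConstSMul_of_continuousConstSMul ℂ Z
  exact ContinuousLinearMap.fromCompletion_apply_coe _ z

@[simp] lemma ptLift_pt {β : X → Y → Z} (h : IsContBilin β) (x : X) (y : Y) :
    ptLift h (pt x y) = β x y := by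
  unfold pt
  rw [ptLift_coe]
  simp

lemma pt_closure {P : PT X Y → Prop} (hP : IsClosed {z | P z}) (zero : P 0)
    (hpt : ∀ x y, P (pt x y)) (add : ∀ a b, P a → P b → P (a + b)) (z : PT X Y) : P z := by
  refine UniformSpace.Completion.induction_on (α := AlgT X Y) (p := P) z hP ?_
  intro a
  refine algT_induction (P := fun a => P (UniformSpace.Completion.coe' a : PT X Y)) a ?_ hpt ?_
  · have : (UniformSpace.Completion.coe' (0 : AlgT X Y) : PT X Y) = 0 :=
      UniformSpace.Completion.coe_zero
    rwa [this]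
  · intro a b ha hb
    have : (UniformSpace.Completion.coe' (a + b : AlgT X Y) : PT X Y) =
      (UniformSpace.Completion.coe' a : PT X Y) + (UniformSpace.Completion.coe' b : PT X Y) :=
      UniformSpace.Completion.coe_add _ _
    rw [this]
    exact add _ _ ha hb

lemma pt_ext {f g : PT X Y → Z} (hf : IsContLin f) (hg : IsContLin g)
    (h : ∀ x y, f (pt x y) = g (pt x y)) : f = g := by
  funext z
  refine pt_closure (P := fun z => f z = g z) (isClosed_eq hf.cont hg.cont) ?_ h ?_ z
  · exact (map_zero hf.toCLM).trans (map_zero hg.toCLM).symm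
  · intro a b ha hb
    rw [hf.add, hg.add, ha, hb]

theorem ptLift_bound {β : X → Y → Z} (h : IsContBilin β) (r : Seminorm ℂ Z) (hr : Continuous r)
    {p : Seminorm ℂ X} {q : Seminorm ℂ Y} (hp : Continuous p) (hq : Continuous q) {c : ℝ}
    (hc : 0 ≤ c) (hb : ∀ x y, r (β x y) ≤ c * (p x * q y)) (z : PT X Y) :
    r (ptLift h z) ≤ c * ptSemi p q hp hq z := by
  refine UniformSpace.Completion.induction_on (α := AlgT X Y)
    (p := fun z : PT X Y => r (ptLift h z) ≤ c * ptSemi p q hp hq z) z ?_ ?_
  · exact isClosed_le (hr.comp (ptLift h).continuous)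
      (continuous_const.mul (ptSemi_continuous p q hp hq))
  · intro a
    have h1 : r (ptLift h (UniformSpace.Completion.coe' a : PT X Y)) =
      (r.comp (algLift h.toLin)) a := by rw [ptLift_coe]; rfl
    have h2 : ptSemi p q hp hq (UniformSpace.Completion.coe' a : PT X Y) = pSemi p q a :=
      extSemi_coe _ _ _
    rw [h1, h2]
    apply le_mul_pSemi hc
    intro x y
    simpa using hb x y

/-- Extension of a family of bilinear maps depending linearly on a parameter. -/
theorem triExt {V : Type u'} [AddCommGroup V] [Module ℂ V] [TopologicalSpace V]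
    [PolynormableSpace ℂ V] {T : V → X → Y → Z} (hT : ∀ v, IsContBilin (T v))
    (add : ∀ v v' x y, T (v + v') x y = T v x y + T v' x y)
    (smul : ∀ (c : ℂ) v x y, T (c • v) x y = c • T v x y)
    (hb : ∀ r : Seminorm ℂ Z, Continuous r → ∃ (p : Seminorm ℂ X) (q : Seminorm ℂ Y)
      (s : Seminorm ℂ V), Continuous p ∧ Continuous q ∧ Continuous s ∧
        ∀ v x y, r (T v x y) ≤ s v * (p x * q y)) :
    IsContBilin (fun (z : PT X Y) (v : V) => ptLift (hT v) z) where
  add_left := fun x x' y => map_add _ _ _
  smul_left := fun c x y => map_smul _ _ _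
  add_right := by
    intro z v v'
    have := pt_ext (X := X) (Y := Y) (Z := Z) (f := fun z => ptLift (hT (v + v')) z)
      (g := fun z => (ptLift (hT v) + ptLift (hT v')) z) (isContLin_clm _) (isContLin_clm _)
      (by intro x y; simp [add])
    exact congrFun this z
  smul_right := by
    intro c z v
    have := pt_ext (X := X) (Y := Y) (Z := Z) (f := fun z => ptLift (hT (c • v)) z)
      (g := fun z => (c • ptLift (hT v)) z) (isContLin_clm _) (isContLin_clm _)
      (by intro x y; simp [smul])
    exact congrFun this z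
  cont := by
    refine continuous_of_bound (β := fun (z : PT X Y) (v : V) => ptLift (hT v) z)
      (fun x x' y => map_add _ _ _) ?_ ?_
    · intro z v v'
      have := pt_ext (X := X) (Y := Y) (Z := Z) (f := fun z => ptLift (hT (v + v')) z)
        (g := fun z => (ptLift (hT v) + ptLift (hT v')) z) (isContLin_clm _) (isContLin_clm _)
        (by intro x y; simp [add])
      exact congrFun this z
    · intro r hr
      obtain ⟨p, q, s, hp, hq, hs, hb⟩ := hb r hr
      refine ⟨ptSemi p q hp hq, s, ptSemi_continuous p q hp hq, hs, fun z v => ?_⟩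
      rw [mul_comm]
      exact ptLift_bound (hT v) r hr hp hq (apply_nonneg s v) (hb v) z

end Lift

section Universal

variable {X Y : Type u} [AddCommGroup X] [Module ℂ X] [TopologicalSpace X]
  [PolynormableSpace ℂ X] [AddCommGroup Y] [Module ℂ Y] [TopologicalSpace Y]
  [PolynormableSpace ℂ Y]

theorem isProjTensor_pt : IsProjTensor (pt : X → Y → PT X Y) := by
  refine ⟨pt_isContBilin, ?_⟩
  intro Z _ _ _ _ β hβ
  refine ⟨fun z => ptLift hβ z, ⟨isContLin_clm _, fun x y => ptLift_pt hβ x y⟩, ?_⟩
  rintro ψ ⟨hψ, hψ2⟩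
  exact pt_ext hψ (isContLin_clm _) (fun x y => by rw [hψ2, ptLift_pt])

end Universal

end

end Pool.Agent.Helper5
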