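import Mathlib
import Pool.Agent.Helper5.Polynormed
import Pool.Agent.Helper5.ProjTensor
import Pool.Agent.Helper5.Amen

/-!
Existence of the enveloping algebra and of the standard complex.
-/

namespace Pool.Agent.Helper5

open Filter Topology

universe u

noncomputable section

section Std

variable {A : Type u} [NonUnitalRing A] [Module ℂ A] [UniformSpace A] [IsPolyAlg A]
  {X : Type u} [AddCommGroup X] [Module ℂ X] [UniformSpace X] [IsPolynormed X]
  {l : A → X → X} {r : X → A → X}

lemma d0_bilin (h : IsBimod l r) : IsContBilin (fun (x : X) (a : A) => r x a - l a x) where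
  add_left x x' a := by rw [h.right_bilin.add_left, h.left_bilin.add_right]; abel
  smul_left c x a := by rw [h.right_bilin.smul_left, h.left_bilin.smul_right, smul_sub]
  add_right x a a' := by rw [h.right_bilin.add_right, h.left_bilin.add_left]; abel
  smul_right c x a := by rw [h.right_bilin.smul_right, h.left_bilin.smul_left, smul_sub]
  cont := h.right_bilin.cont.sub (h.left_bilin.cont.comp continuous_swap)

/-- The value of `d₁` on `(x ⊗ a) ⊗ b`. -/
def d1pt (l : A → X → X) (r : X → A → X) (b : A) (x : X) (a : A) : PT X A :=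
  pt (r x a) b - pt x (a * b) + pt (l b x) a

lemma d1_bilin (h : IsBimod l r) (b : A) : IsContBilin (d1pt l r b) where
  add_left x x' a := by
    unfold d1pt
    rw [h.right_bilin.add_left, h.left_bilin.add_right, pt_isContBilin.add_left,
      pt_isContBilin.add_left, pt_isContBilin.add_left]
    abel
  smul_left c x a := by
    unfold d1pt
    rw [h.right_bilin.smul_left, h.left_bilin.smul_right, pt_isContBilin.smul_left,
      pt_isContBilin.smul_left, pt_isContBilin.smul_left, smul_add, smul_sub]
  add_right x a a' := by
    unfold d1pt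
    rw [h.right_bilin.add_right, add_mul, pt_isContBilin.add_left,
      pt_isContBilin.add_right, pt_isContBilin.add_right]
    abel
  smul_right c x a := by
    unfold d1pt
    rw [h.right_bilin.smul_right, (IsPolyAlg.mul_bilin (A := A)).smul_left,
      pt_isContBilin.smul_left, pt_isContBilin.smul_right, pt_isContBilin.smul_right,
      smul_add, smul_sub]
  cont := by
    refine Continuous.add (Continuous.sub ?_ ?_) ?_
    · exact (pt_isContBilin.cont_left b).comp h.right_bilin.cont
    · exact pt_isContBilin.cont.comp (continuous_fst.prodMk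
        (((IsPolyAlg.mul_bilin (A := A)).cont_left b).comp continuous_snd))
    · exact pt_isContBilin.cont.comp (((h.left_bilin.cont_right b).comp continuous_fst).prodMk
        continuous_snd)

lemma d1_tri (h : IsBimod l r) :
    IsContBilin (fun (z : PT X A) (b : A) => ptLift (d1_bilin h b) z) := by
  refine triExt (d1_bilin h) ?_ ?_ ?_
  · intro v v' x y
    unfold d1pt
    rw [pt_isContBilin.add_right, mul_add, pt_isContBilin.add_right, h.left_bilin.add_left,
      pt_isContBilin.add_left]
    abel
  · intro c v x y
    unfold d1pt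
    rw [pt_isContBilin.smul_right, (IsPolyAlg.mul_bilin (A := A)).smul_right,
      pt_isContBilin.smul_right, h.left_bilin.smul_left,
      pt_isContBilin.smul_left, smul_add, smul_sub]
  · intro R hR
    obtain ⟨p, q, hp, hq, hpq⟩ := (pt_isContBilin (X := X) (Y := A)).exists_bound R hR
    obtain ⟨p1, q1, hp1, hq1, h1⟩ := h.right_bilin.exists_bound p hp
    obtain ⟨q2, q3, hq2, hq3, h2⟩ := (IsPolyAlg.mul_bilin (A := A)).exists_bound q hq
    obtain ⟨p4, p5, hp4, hp5, h3⟩ := h.left_bilin.exists_bound p hp
    refine ⟨p1 + p + p5, q1 + q2 + q, q + q3 + p4, (hp1.add hp).add hp5, (hq1.add hq2).add hq,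
      (hq.add hq3).add hp4, fun b x a => ?_⟩
    have e1 : R (pt (r x a) b) ≤ (p1 x * q1 a) * q b :=
      (hpq _ _).trans (mul_le_mul_of_nonneg_right (h1 x a) (apply_nonneg q b))
    have e2 : R (pt x (a * b)) ≤ p x * (q2 a * q3 b) :=
      (hpq _ _).trans (mul_le_mul_of_nonneg_left (h2 a b) (apply_nonneg p x))
    have e3 : R (pt (l b x) a) ≤ (p4 b * p5 x) * q a :=
      (hpq _ _).trans (mul_le_mul_of_nonneg_right (h3 b x) (apply_nonneg q a))
    have e4 : R (d1pt l r b x a) ≤ R (pt (r x a) b) + R (pt x (a * b)) + R (pt (l b x) a) := by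
      unfold d1pt
      refine (map_add_le_add R _ _).trans (add_le_add_left ?_ _)
      exact map_sub_le_add R _ _
    have n1 := apply_nonneg p x
    have n2 := apply_nonneg p1 x
    have n3 := apply_nonneg p5 x
    have n4 := apply_nonneg q a
    have n5 := apply_nonneg q1 a
    have n6 := apply_nonneg q2 a
    have n7 := apply_nonneg q b
    have n8 := apply_nonneg q3 b
    have n9 := apply_nonneg p4 b
    refine e4.trans ((add_le_add (add_le_add e1 e2) e3).trans ?_)
    show p1 x * q1 a * q b + p x * (q2 a * q3 b) + p4 b * p5 x * q a ≤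
      (q b + q3 b + p4 b) * ((p1 x + p x + p5 x) * (q1 a + q2 a + q a))
    have k1 : 0 ≤ p1 x * q1 a * q3 b := by positivity
    have := mul_nonneg n7 (mul_nonneg n2 n6)
    have := mul_nonneg n7 (mul_nonneg n2 n4)
    have := mul_nonneg n7 (mul_nonneg n1 n5)
    have := mul_nonneg n7 (mul_nonneg n1 n6)
    have := mul_nonneg n7 (mul_nonneg n1 n4)
    have := mul_nonneg n7 (mul_nonneg n3 n5)
    have := mul_nonneg n7 (mul_nonneg n3 n6)
    have := mul_nonneg n7 (mul_nonneg n3 n4)
    have := mul_nonneg n8 (mul_nonneg n2 n5)
    have := mul_nonneg n8 (mul_nonneg n2 n6)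
    have := mul_nonneg n8 (mul_nonneg n2 n4)
    have := mul_nonneg n8 (mul_nonneg n1 n5)
    have := mul_nonneg n8 (mul_nonneg n1 n4)
    have := mul_nonneg n8 (mul_nonneg n3 n5)
    have := mul_nonneg n8 (mul_nonneg n3 n6)
    have := mul_nonneg n8 (mul_nonneg n3 n4)
    have := mul_nonneg n9 (mul_nonneg n2 n5)
    have := mul_nonneg n9 (mul_nonneg n2 n6)
    have := mul_nonneg n9 (mul_nonneg n2 n4)
    have := mul_nonneg n9 (mul_nonneg n1 n5)
    have := mul_nonneg n9 (mul_nonneg n1 n6)
    have := mul_nonneg n9 (mul_nonneg n1 n4)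
    have := mul_nonneg n9 (mul_nonneg n3 n5)
    have := mul_nonneg n9 (mul_nonneg n3 n6)
    linarith

/-- The standard complex exists for every bimodule. -/
theorem exists_stdComplex (h : IsBimod l r) :
    IsStdComplex l r (pt : X → A → PT X A) (pt : PT X A → A → PT (PT X A) A)
      (fun z => ptLift (d0_bilin h) z) (fun z => ptLift (d1_tri h) z) where
  tensor₁ := isProjTensor_pt
  tensor₂ := isProjTensor_pt
  lin₀ := isContLin_clm _
  lin₁ := isContLin_clm _
  d₀_apply x a := ptLift_pt _ _ _
  d₁_apply x a b := by
    rw [ptLift_pt, ptLift_pt]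
    rfl

end Std

section Envelope

variable {A : Type u} [NonUnitalRing A] [Module ℂ A] [UniformSpace A] [IsPolyAlg A]

instance : IsPolynormed (ℂ × A) where
  uniformAddGroup := inferInstance
  continuousSMul := inferInstance
  polynormable := inferInstance
  t2 := inferInstance
  complete := inferInstance

lemma plusMul_bilin : IsContBilin (plusMul : ℂ × A → ℂ × A → ℂ × A) where
  add_left x x' y := by
    unfold plusMul
    ext
    · simp [add_mul]
    · simp only [Prod.fst_add, Prod.snd_add, add_smul, smul_add, add_mul]
      abel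
  smul_left c x y := by
    unfold plusMul
    ext
    · simp [mul_assoc]
    · simp only [Prod.smul_fst, Prod.smul_snd, smul_add, smul_smul, smul_eq_mul,
        (IsPolyAlg.mul_bilin (A := A)).smul_left, mul_comm c]
  add_right x y y' := by
    unfold plusMul
    ext
    · simp [mul_add]
    · simp only [Prod.fst_add, Prod.snd_add, add_smul, smul_add, mul_add]
      abel
  smul_right c x y := by
    unfold plusMul
    ext
    · simp [mul_left_comm]
    · simp only [Prod.smul_fst, Prod.smul_snd, smul_add, smul_smul, smul_eq_mul,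
        (IsPolyAlg.mul_bilin (A := A)).smul_right, mul_comm c]
  cont := by
    unfold plusMul
    have h := (IsPolyAlg.mul_bilin (A := A)).cont
    refine Continuous.prodMk (by fun_prop) (Continuous.add (by fun_prop) ?_)
    exact h.comp ((continuous_snd.comp continuous_fst).prodMk (continuous_snd.comp continuous_snd))

/-- `(c ⊗ d) ↦ a c ⊗ d b`. -/
def envStepFun (a b c d : ℂ × A) : PT (ℂ × A) (ℂ × A) := pt (plusMul a c) (plusMul d b)

lemma envStep_bilin (a b : ℂ × A) : IsContBilin (envStepFun a b) where
  add_left x x' y := by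
    unfold envStepFun; rw [plusMul_bilin.add_right, pt_isContBilin.add_left]
  smul_left c x y := by
    unfold envStepFun; rw [plusMul_bilin.smul_right, pt_isContBilin.smul_left]
  add_right x y y' := by
    unfold envStepFun; rw [plusMul_bilin.add_left, pt_isContBilin.add_right]
  smul_right c x y := by
    unfold envStepFun; rw [plusMul_bilin.smul_left, pt_isContBilin.smul_right]
  cont := pt_isContBilin.cont.comp (((plusMul_bilin.cont_right a).comp continuous_fst).prodMk
    ((plusMul_bilin.cont_left b).comp continuous_snd))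

/-- `w ↦ (a ⊗ b) w`. -/
def envStep (a b : ℂ × A) : PT (ℂ × A) (ℂ × A) →L[ℂ] PT (ℂ × A) (ℂ × A) :=
  ptLift (envStep_bilin a b)

lemma envStep_pt (a b c d : ℂ × A) : envStep a b (pt c d) = pt (plusMul a c) (plusMul d b) :=
  ptLift_pt _ _ _

lemma envStep_bound (R : Seminorm ℂ (PT (ℂ × A) (ℂ × A))) (hR : Continuous R) :
    ∃ (p q : Seminorm ℂ (ℂ × A)) (s : Seminorm ℂ (PT (ℂ × A) (ℂ × A))),
      Continuous p ∧ Continuous q ∧ Continuous s ∧
        ∀ w a b, R (envStep a b w) ≤ s w * (p a * q b) := by
  obtain ⟨p, q, hp, hq, hpq⟩ := (pt_isContBilin (X := ℂ × A) (Y := ℂ × A)).exists_bound R hR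
  obtain ⟨p1, p2, hp1, hp2, h1⟩ := (plusMul_bilin (A := A)).exists_bound p hp
  obtain ⟨q1, q2, hq1, hq2, h2⟩ := (plusMul_bilin (A := A)).exists_bound q hq
  refine ⟨p1, q2, ptSemi p2 q1 hp2 hq1, hp1, hq2, ptSemi_continuous _ _ _ _, fun w a b => ?_⟩
  rw [mul_comm]
  refine ptLift_bound (envStep_bilin a b) R hR hp2 hq1
    (mul_nonneg (apply_nonneg p1 a) (apply_nonneg q2 b)) (fun c d => ?_) w
  have n1 := apply_nonneg p (plusMul a c)
  have n2 := apply_nonneg q (plusMul d b)
  calc R (envStepFun a b c d) ≤ p (plusMul a c) * q (plusMul d b) := hpq _ _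
    _ ≤ (p1 a * p2 c) * (q1 d * q2 b) := mul_le_mul (h1 a c) (h2 d b) n2
        (mul_nonneg (apply_nonneg _ _) (apply_nonneg _ _))
    _ = p1 a * q2 b * (p2 c * q1 d) := by ring

lemma envStep_isContBilin (w : PT (ℂ × A) (ℂ × A)) :
    IsContBilin (fun a b : ℂ × A => envStep a b w) where
  add_left a a' b := by
    have := pt_ext (f := fun w => envStep (a + a') b w)
      (g := fun w => (envStep a b + envStep a' b) w) (isContLin_clm _) (isContLin_clm _)
      (fun c d => by
        simp only [envStep_pt, plusMul_bilin.add_left, pt_isContBilin.add_left, add_apply])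
    exact congrFun this w
  smul_left k a b := by
    have := pt_ext (f := fun w => envStep (k • a) b w)
      (g := fun w => (k • envStep a b) w) (isContLin_clm _) (isContLin_clm _)
      (fun c d => by
        simp only [envStep_pt, plusMul_bilin.smul_left, pt_isContBilin.smul_left, smul_apply])
    exact congrFun this w
  add_right a b b' := by
    have := pt_ext (f := fun w => envStep a (b + b') w)
      (g := fun w => (envStep a b + envStep a b') w) (isContLin_clm _) (isContLin_clm _)
      (fun c d => by
        simp only [envStep_pt, plusMul_bilin.add_right, pt_isContBilin.add_right, add_apply])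
    exact congrFun this w
  smul_right k a b := by
    have := pt_ext (f := fun w => envStep a (k • b) w)
      (g := fun w => (k • envStep a b) w) (isContLin_clm _) (isContLin_clm _)
      (fun c d => by
        simp only [envStep_pt, plusMul_bilin.smul_right, pt_isContBilin.smul_right, smul_apply])
    exact congrFun this w
  cont := by
    refine continuous_of_bound (β := fun a b : ℂ × A => envStep a b w) ?_ ?_ ?_
    · intro a a' b
      have := pt_ext (f := fun w => envStep (a + a') b w)
        (g := fun w => (envStep a b + envStep a' b) w) (isContLin_clm _) (isContLin_clm _)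
        (fun c d => by
          simp only [envStep_pt, plusMul_bilin.add_left, pt_isContBilin.add_left, add_apply])
      exact congrFun this w
    · intro a b b'
      have := pt_ext (f := fun w => envStep a (b + b') w)
        (g := fun w => (envStep a b + envStep a b') w) (isContLin_clm _) (isContLin_clm _)
        (fun c d => by
          simp only [envStep_pt, plusMul_bilin.add_right, pt_isContBilin.add_right, add_apply])
      exact congrFun this w
    · intro R hR
      obtain ⟨p, q, s, hp, hq, hs, h⟩ := envStep_bound R hR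
      refine ⟨(Real.toNNReal (s w)) • p, q, Continuous.const_smul hp _, hq, fun a b => ?_⟩
      have : ((Real.toNNReal (s w)) • p) a = s w * p a := by
        rw [smul_apply, NNReal.smul_def, Real.coe_toNNReal _ (apply_nonneg s w)]
        rfl
      rw [this, mul_assoc]
      exact h w a b

lemma env_tri : IsContBilin
    (fun (z w : PT (ℂ × A) (ℂ × A)) => ptLift (envStep_isContBilin w) z) := by
  refine triExt (fun w => envStep_isContBilin w) ?_ ?_ ?_
  · intro w w' a b
    exact map_add _ _ _
  · intro c w a b
    exact map_smul _ _ _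
  · intro R hR
    obtain ⟨p, q, s, hp, hq, hs, h⟩ := envStep_bound R hR
    exact ⟨p, q, s, hp, hq, hs, fun w a b => h w a b⟩

/-- Multiplication of the enveloping algebra. -/
def envMul (z w : PT (ℂ × A) (ℂ × A)) : PT (ℂ × A) (ℂ × A) := ptLift (envStep_isContBilin w) z

lemma envMul_pt (a b c d : ℂ × A) :
    envMul (pt a b) (pt c d) = pt (plusMul a c) (plusMul d b) := by
  unfold envMul
  rw [ptLift_pt, envStep_pt]

/-- The map `a ⊗ b ↦ a b`. -/
def envPi (z : PT (ℂ × A) (ℂ × A)) : ℂ × A := ptLift plusMul_bilin z

theorem isEnv : IsEnv (pt : ℂ × A → ℂ × A → PT (ℂ × A) (ℂ × A)) envMul envPi where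
  tensor := isProjTensor_pt
  mul_bilin := env_tri
  mul_apply := envMul_pt
  π_lin := isContLin_clm _
  π_apply a b := ptLift_pt _ _ _

end Envelope

end

end Pool.Agent.Helper5
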