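import Mathlib
import Pool.Agent.Helper5.Polynormed
import Pool.Agent.Helper5.ProjTensor
import Pool.Agent.Helper5.Amen
import Pool.Agent.Helper5.Env

/-!
A bounded right approximate identity in the diagonal ideal of a commutative polynormed algebra
with many idempotents.
-/

namespace Pool.Agent.Helper5

open Filter Topology Classical

universe u v w

noncomputable section

lemma sum_right {X : Type u} {Y : Type v} {Z : Type w}
    [AddCommGroup X] [Module ℂ X] [TopologicalSpace X]
    [AddCommGroup Y] [Module ℂ Y] [TopologicalSpace Y]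
    [AddCommGroup Z] [Module ℂ Z] [TopologicalSpace Z] {β : X → Y → Z} (h : IsContBilin β)
    {κ : Type*} (s : Finset κ) (x : X) (y : κ → Y) :
    β x (∑ i ∈ s, y i) = ∑ i ∈ s, β x (y i) := by
  induction s using Finset.induction_on with
  | empty => simpa using h.zero_right x
  | insert j s hj ih => rw [Finset.sum_insert hj, Finset.sum_insert hj, h.add_right, ih]

/-- Sign trick. -/
lemma sign_trick {X : Type u} {Y : Type v} {Z : Type w}
    [AddCommGroup X] [Module ℂ X] [TopologicalSpace X]
    [AddCommGroup Y] [Module ℂ Y] [TopologicalSpace Y]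
    [AddCommGroup Z] [Module ℂ Z] [TopologicalSpace Z] {β : X → Y → Z} (h : IsContBilin β)
    (r : Seminorm ℂ Z) {κ : Type*} (s : Finset κ) (x : κ → X) (y : κ → Y) (M : ℝ) :
    ∀ (x0 : X) (y0 : Y),
    (∀ ε : κ → ℂ, (∀ i, ε i = 1 ∨ ε i = -1) →
      r (β (x0 + ∑ i ∈ s, ε i • x i) (y0 + ∑ i ∈ s, ε i • y i)) ≤ M) →
    r (β x0 y0 + ∑ i ∈ s, β (x i) (y i)) ≤ M := by
  induction s using Finset.induction_on with
  | empty =>
    intro x0 y0 H
    simpa using H (fun _ => 1) (fun _ => Or.inl rfl)
  | insert j s hj ih =>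
    intro x0 y0 H
    have e : β x0 y0 + ∑ i ∈ insert j s, β (x i) (y i) =
        (1 / 2 : ℂ) • ((β (x0 + x j) (y0 + y j) + ∑ i ∈ s, β (x i) (y i)) +
          (β (x0 - x j) (y0 - y j) + ∑ i ∈ s, β (x i) (y i))) := by
      rw [Finset.sum_insert hj, h.add_left, h.add_right, h.add_right, h.sub_left, h.sub_right,
        h.sub_right]
      module
    have hp : ∀ δ : ℂ, (δ = 1 ∨ δ = -1) →
        r (β (x0 + δ • x j) (y0 + δ • y j) + ∑ i ∈ s, β (x i) (y i)) ≤ M := by
      intro δ hδ
      apply ih
      intro ε hε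
      have := H (Function.update ε j δ) (by
        intro i
        by_cases hij : i = j
        · subst hij
          simpa using hδ
        · simpa [Function.update_of_ne hij] using hε i)
      rw [Finset.sum_insert hj, Finset.sum_insert hj] at this
      have e1 : ∑ i ∈ s, Function.update ε j δ i • x i = ∑ i ∈ s, ε i • x i := by
        refine Finset.sum_congr rfl fun i hi => ?_
        rw [Function.update_of_ne (fun hij => hj (by rwa [← hij]))]
      have e2 : ∑ i ∈ s, Function.update ε j δ i • y i = ∑ i ∈ s, ε i • y i := by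
        refine Finset.sum_congr rfl fun i hi => ?_
        rw [Function.update_of_ne (fun hij => hj (by rwa [← hij]))]
      rw [e1, e2, Function.update_self, ← add_assoc, ← add_assoc] at this
      exact this
    have h1 := hp 1 (Or.inl rfl)
    have h2 := hp (-1) (Or.inr rfl)
    rw [one_smul, one_smul] at h1
    rw [neg_one_smul, neg_one_smul, ← sub_eq_add_neg, ← sub_eq_add_neg] at h2
    rw [e, map_smul_eq_mul]
    have h3 := map_add_le_add r (β (x0 + x j) (y0 + y j) + ∑ i ∈ s, β (x i) (y i))
      (β (x0 - x j) (y0 - y j) + ∑ i ∈ s, β (x i) (y i))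
    have h4 : ‖(1 / 2 : ℂ)‖ = 1 / 2 := by norm_num
    rw [h4]
    linarith

/-- The set of points of convergence to zero of an equicontinuous family is closed. -/
lemma closed_tendsto {G : Type u} [AddCommGroup G] [Module ℂ G] [TopologicalSpace G]
    [PolynormableSpace ℂ G] {Z : Type v} [AddCommGroup Z] [Module ℂ Z] [TopologicalSpace Z]
    [PolynormableSpace ℂ Z] {ι : Type*} {l : Filter ι} (f : ι → G → Z)
    (add : ∀ i x y, f i (x + y) = f i x + f i y)
    (hb : ∀ r : Seminorm ℂ Z, Continuous r → ∃ p : Seminorm ℂ G, Continuous p ∧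
      ∀ i x, r (f i x) ≤ p x) :
    IsClosed {x | Tendsto (fun i => f i x) l (𝓝 0)} := by
  have hG := (PolynormableSpace.withSeminorms ℂ G).topologicalAddGroup
  apply isClosed_of_closure_subset
  intro x hx
  apply tendsto_of_seminorms
  intro r hr
  obtain ⟨p, hp, hpb⟩ := hb r hr
  rw [Metric.tendsto_nhds]
  intro ε hε
  have hO : {y : G | p (x - y) < ε / 2} ∈ 𝓝 x := by
    have hc : Continuous fun y : G => p (x - y) := by fun_prop
    apply (isOpen_lt hc continuous_const).mem_nhds
    simp only [Set.mem_ofPred_eq, sub_self, map_zero]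
    positivity
  obtain ⟨y, hy1, hy2⟩ := mem_closure_iff_nhds.1 hx _ hO
  have hy3 : Tendsto (fun i => r (f i y)) l (𝓝 0) := by
    have := (hr.tendsto 0).comp hy2
    rw [map_zero] at this
    exact this
  rw [Metric.tendsto_nhds] at hy3
  filter_upwards [hy3 (ε / 2) (by positivity)] with i hi
  rw [Real.dist_eq, sub_zero, sub_zero, abs_of_nonneg (apply_nonneg r _)]
  rw [Real.dist_eq, sub_zero, abs_of_nonneg (apply_nonneg r _)] at hi
  have e : f i x = f i (x - y) + f i y := by rw [← add]; simp
  rw [e]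
  have h1 := map_add_le_add r (f i (x - y)) (f i y)
  have h2 := hpb i (x - y)
  have h3 : p (x - y) < ε / 2 := hy1
  linarith

section Atoms

variable (A : Type u) [NonUnitalCommRing A] [Module ℂ A]

/-- Idempotents. -/
abbrev Idp : Type u := {u : A // u * u = u}

variable {A}
variable [IsScalarTower ℂ A A] [SMulCommClass ℂ A A]

/-- Atoms of the finite Boolean algebra generated by a finite set of idempotents. -/
def atom (S T : Finset (Idp A)) : Unitization ℂ A :=
  (∏ s ∈ T, ((s : A) : Unitization ℂ A)) * ∏ s ∈ S \ T, (1 - ((s : A) : Unitization ℂ A))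

lemma idp_sq (s : Idp A) : ((s : A) : Unitization ℂ A) * ((s : A) : Unitization ℂ A) =
    ((s : A) : Unitization ℂ A) := by
  rw [← Unitization.inr_mul, s.2]

lemma sum_atom (S : Finset (Idp A)) : ∑ T ∈ S.powerset, atom S T = 1 := by
  have := Finset.prod_add (fun s : Idp A => ((s : A) : Unitization ℂ A))
    (fun s : Idp A => 1 - ((s : A) : Unitization ℂ A)) S
  simp only [add_sub_cancel, Finset.prod_const_one] at this
  exact this.symm

lemma atom_sq (S T : Finset (Idp A)) : atom S T * atom S T = atom S T := by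
  unfold atom
  rw [mul_mul_mul_comm, ← Finset.prod_mul_distrib, ← Finset.prod_mul_distrib]
  congr 1
  · exact Finset.prod_congr rfl fun s _ => idp_sq s
  · refine Finset.prod_congr rfl fun s _ => ?_
    have := idp_sq s
    ring_nf
    rw [pow_two, this]
    ring

lemma mul_atom {S T : Finset (Idp A)} {s : Idp A} (hs : s ∈ S) :
    ((s : A) : Unitization ℂ A) * atom S T = if s ∈ T then atom S T else 0 := by
  unfold atom
  split_ifs with h
  · rw [← mul_assoc]
    congr 1
    rw [← Finset.mul_prod_erase T _ h, ← mul_assoc, idp_sq]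
  · have h2 : s ∈ S \ T := Finset.mem_sdiff.2 ⟨hs, h⟩
    rw [← Finset.mul_prod_erase (S \ T) _ h2]
    have : ((s : A) : Unitization ℂ A) * (1 - ((s : A) : Unitization ℂ A)) = 0 := by
      rw [mul_sub, mul_one, idp_sq, sub_self]
    rw [mul_left_comm, ← mul_assoc ((s : A) : Unitization ℂ A), this, zero_mul, mul_zero]

/-- `a` acts by scalars on the atoms of all large enough systems. -/
def Scal (a : Unitization ℂ A) : Prop :=
  ∃ S₀ : Finset (Idp A), ∀ S, S₀ ≤ S → ∀ T, ∃ c : ℂ, a * atom S T = c • atom S T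

lemma scal_one : Scal (1 : Unitization ℂ A) := ⟨∅, fun S _ T => ⟨1, by simp⟩⟩

lemma scal_zero : Scal (0 : Unitization ℂ A) := ⟨∅, fun S _ T => ⟨0, by simp⟩⟩

lemma scal_idp (s : Idp A) : Scal ((s : A) : Unitization ℂ A) := by
  refine ⟨{s}, fun S hS T => ?_⟩
  rw [mul_atom (hS (Finset.mem_singleton_self s))]
  split_ifs
  · exact ⟨1, by simp⟩
  · exact ⟨0, by simp⟩

lemma scal_add {a b : Unitization ℂ A} (ha : Scal a) (hb : Scal b) : Scal (a + b) := by
  obtain ⟨S, hS⟩ := ha
  obtain ⟨S', hS'⟩ := hb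
  refine ⟨S ∪ S', fun R hR T => ?_⟩
  obtain ⟨c, hc⟩ := hS R (Finset.union_subset_left hR) T
  obtain ⟨d, hd⟩ := hS' R (Finset.union_subset_right hR) T
  exact ⟨c + d, by rw [add_mul, hc, hd, add_smul]⟩

lemma scal_smul {a : Unitization ℂ A} (k : ℂ) (ha : Scal a) : Scal (k • a) := by
  obtain ⟨S, hS⟩ := ha
  refine ⟨S, fun R hR T => ?_⟩
  obtain ⟨c, hc⟩ := hS R hR T
  exact ⟨k * c, by rw [smul_mul_assoc, hc, smul_smul]⟩

lemma scal_span {a : A} (ha : a ∈ Submodule.span ℂ {u : A | u * u = u}) :
    Scal (a : Unitization ℂ A) := by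
  induction ha using Submodule.span_induction with
  | mem x hx => exact scal_idp ⟨x, hx⟩
  | zero => simpa using scal_zero
  | add x y _ _ hx hy => simpa using scal_add hx hy
  | smul k x _ hx => simpa using scal_smul k hx

/-- A character takes the values 0 and 1 on atoms, exactly once the value 1. -/
lemma char_atom (χ : Unitization ℂ A →ₐ[ℂ] ℂ) (S : Finset (Idp A)) :
    ∑ T ∈ S.powerset, ‖χ (atom S T)‖ = 1 := by
  have h : ∀ T, (‖χ (atom S T)‖ : ℂ) = χ (atom S T) := by
    intro T
    have h1 : χ (atom S T) * χ (atom S T) = χ (atom S T) := by rw [← map_mul, atom_sq]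
    have h2 : χ (atom S T) = 0 ∨ χ (atom S T) = 1 := by
      have : χ (atom S T) * (χ (atom S T) - 1) = 0 := by rw [mul_sub, h1, mul_one, sub_self]
      rcases mul_eq_zero.1 this with h | h
      · exact Or.inl h
      · exact Or.inr (sub_eq_zero.1 h)
    rcases h2 with h | h <;> simp [h]
  have : (∑ T ∈ S.powerset, (‖χ (atom S T)‖ : ℂ)) = 1 := by
    rw [Finset.sum_congr rfl (fun T _ => h T), ← map_sum, sum_atom, map_one]
  exact_mod_cast this

lemma char_bound (χ : Unitization ℂ A →ₐ[ℂ] ℂ) (S : Finset (Idp A))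
    (ε : Finset (Idp A) → ℂ) (hε : ∀ T, ε T = 1 ∨ ε T = -1) :
    ‖χ (∑ T ∈ S.powerset, ε T • atom S T)‖ ≤ 1 := by
  rw [map_sum]
  refine (norm_sum_le _ _).trans ?_
  rw [← char_atom χ S]
  refine Finset.sum_le_sum fun T _ => ?_
  rw [map_smul, norm_smul]
  rcases hε T with h | h <;> simp [h]

end Atoms

section Main

variable {A : Type u} [NonUnitalCommRing A] [Module ℂ A] [IsScalarTower ℂ A A]
  [SMulCommClass ℂ A A] [UniformSpace A] [IsPolyAlg A]

lemma toProd_mul (x y : Unitization ℂ A) :
    (x * y).toProd = plusMul x.toProd y.toProd := by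
  unfold plusMul
  ext
  · rfl
  · rfl

/-- The sums `∑ u ⊗ u` over the atoms. -/
def delta (S : Finset (Idp A)) : PT (ℂ × A) (ℂ × A) :=
  ∑ T ∈ S.powerset, pt (atom S T).toProd (atom S T).toProd

/-- The net. -/
def eNet (S : Finset (Idp A)) : PT (ℂ × A) (ℂ × A) :=
  pt (1 : Unitization ℂ A).toProd (1 : Unitization ℂ A).toProd - delta S

/-- `x ↦ x - 1 ⊗ π x`. -/
def theta (z : PT (ℂ × A) (ℂ × A)) : PT (ℂ × A) (ℂ × A) :=
  z - pt (1 : Unitization ℂ A).toProd (envPi z)

lemma theta_lin : IsContLin (theta (A := A)) where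
  add x y := by
    unfold theta
    rw [isEnv.π_lin.add, pt_isContBilin.add_right]
    abel
  smul c x := by
    unfold theta
    rw [isEnv.π_lin.smul, pt_isContBilin.smul_right, smul_sub]
  cont := by
    unfold theta
    exact continuous_id.sub ((pt_isContBilin.cont_right _).comp isEnv.π_lin.cont)

lemma toProd_sum (s : Finset (Finset (Idp A))) (f : Finset (Idp A) → Unitization ℂ A) :
    (∑ T ∈ s, f T).toProd = ∑ T ∈ s, (f T).toProd := by
  exact map_sum (Unitization.addEquiv ℂ A) f s

lemma envPi_delta (S : Finset (Idp A)) : envPi (delta S) = (1 : Unitization ℂ A).toProd := by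
  unfold delta
  have : envPi (∑ T ∈ S.powerset, pt (atom S T).toProd (atom S T).toProd) =
      ∑ T ∈ S.powerset, envPi (pt (atom S T).toProd (atom S T).toProd) :=
    map_sum (ptLift (plusMul_bilin (A := A))) _ _
  rw [this, ← sum_atom S, toProd_sum]
  refine Finset.sum_congr rfl fun T _ => ?_
  rw [isEnv.π_apply, ← toProd_mul, atom_sq]

lemma envPi_eNet (S : Finset (Idp A)) : envPi (eNet S) = 0 := by
  unfold eNet
  have : envPi (pt (1 : Unitization ℂ A).toProd (1 : Unitization ℂ A).toProd - delta S) =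
      envPi (pt (1 : Unitization ℂ A).toProd (1 : Unitization ℂ A).toProd) - envPi (delta S) :=
    map_sub (ptLift (plusMul_bilin (A := A))) _ _
  rw [this, envPi_delta, isEnv.π_apply, ← toProd_mul, mul_one, sub_self]

lemma envMul_one (z : PT (ℂ × A) (ℂ × A)) :
    envMul z (pt (1 : Unitization ℂ A).toProd (1 : Unitization ℂ A).toProd) = z := by
  have := pt_ext (f := fun z : PT (ℂ × A) (ℂ × A) =>
    envMul z (pt (1 : Unitization ℂ A).toProd (1 : Unitization ℂ A).toProd))
    (g := fun z => z) (isEnv.mul_bilin.isContLin_left _)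
    ⟨fun _ _ => rfl, fun _ _ => rfl, continuous_id⟩
    (by
      intro a b
      obtain ⟨a, rfl⟩ := Unitization.toProd_surjective a
      obtain ⟨b, rfl⟩ := Unitization.toProd_surjective b
      simp only [envMul_pt, ← toProd_mul, mul_one, one_mul])
  exact congrFun this z

/-- The exact vanishing on scalar elements. -/
lemma theta_mul_eq_zero {a b u : Unitization ℂ A} {c : ℂ} (h : a * u = c • u) :
    envMul (theta (pt a.toProd b.toProd)) (pt u.toProd u.toProd) = 0 := by
  unfold theta
  rw [isEnv.mul_bilin.sub_left, isEnv.π_apply, envMul_pt, ← toProd_mul, ← toProd_mul,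
    ← toProd_mul, envMul_pt, ← toProd_mul, ← toProd_mul, h, one_mul]
  have h2 : u * (a * b) = c • (u * b) := by
    rw [← mul_assoc, mul_comm u a, h, smul_mul_assoc]
  rw [h2]
  have e1 : (c • u).toProd = c • u.toProd := rfl
  have e2 : (c • (u * b)).toProd = c • (u * b).toProd := rfl
  rw [e1, e2, pt_isContBilin.smul_left, pt_isContBilin.smul_right, sub_self]

lemma theta_delta_eq_zero {a b : Unitization ℂ A} {S : Finset (Idp A)}
    (h : ∀ T, ∃ c : ℂ, a * atom S T = c • atom S T) :
    envMul (theta (pt a.toProd b.toProd)) (delta S) = 0 := by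
  unfold delta
  have : envMul (theta (pt a.toProd b.toProd))
      (∑ T ∈ S.powerset, pt (atom S T).toProd (atom S T).toProd) =
      ∑ T ∈ S.powerset, envMul (theta (pt a.toProd b.toProd))
        (pt (atom S T).toProd (atom S T).toProd) :=
    sum_right isEnv.mul_bilin _ _ _
  rw [this]
  refine Finset.sum_eq_zero fun T _ => ?_
  obtain ⟨c, hc⟩ := h T
  exact theta_mul_eq_zero hc

variable (Φ : Set (A →ₙₐ[ℂ] ℂ))
  (H2 : ∀ q : Seminorm ℂ A, Continuous q → ∃ C : ℝ, ∀ (a : A) (M : ℝ), 0 ≤ M →
    (∀ χ ∈ Φ, ‖χ a‖ ≤ M) → q a ≤ C * M)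

include H2 in
lemma signed_bound (p : Seminorm ℂ (ℂ × A)) (hp : Continuous p) :
    ∃ C : ℝ, ∀ (S : Finset (Idp A)) (ε : Finset (Idp A) → ℂ), (∀ T, ε T = 1 ∨ ε T = -1) →
      p (∑ T ∈ S.powerset, ε T • (atom S T).toProd) ≤ C := by
  let q : Seminorm ℂ A := p.comp (LinearMap.inr ℂ ℂ A)
  have hq : Continuous q := hp.comp (by
    show Continuous fun a : A => ((0 : ℂ), a)
    fun_prop)
  obtain ⟨C, hC⟩ := H2 q hq
  refine ⟨p (1, 0) + C * 2, fun S ε hε => ?_⟩
  have e : ∑ T ∈ S.powerset, ε T • (atom S T).toProd =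
      (∑ T ∈ S.powerset, ε T • atom S T).toProd := by
    rw [toProd_sum]
    rfl
  rw [e]
  set x := ∑ T ∈ S.powerset, ε T • atom S T with hx
  have h1 : ‖x.fst‖ ≤ 1 := char_bound (Unitization.fstHom ℂ A) S ε hε
  have h2 : ∀ χ ∈ Φ, ‖χ x.snd‖ ≤ 2 := by
    intro χ _
    have h3 := char_bound χ.toAlgHom S ε hε
    rw [← hx] at h3
    have h4 : χ.toAlgHom x = x.fst + χ x.snd := by
      simp
    rw [h4] at h3
    calc ‖χ x.snd‖ = ‖(x.fst + χ x.snd) - x.fst‖ := by ring_nf
      _ ≤ ‖x.fst + χ x.snd‖ + ‖x.fst‖ := norm_sub_le _ _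
      _ ≤ 2 := by linarith
  have h5 : q x.snd ≤ C * 2 := hC x.snd 2 (by norm_num) h2
  have h6 : x.toProd = x.fst • ((1 : ℂ), (0 : A)) + ((0 : ℂ), x.snd) := by
    ext
    · simp
    · simp
  have h7 : p (x.fst • ((1 : ℂ), (0 : A))) ≤ p (1, 0) := by
    rw [map_smul_eq_mul]
    have := apply_nonneg p ((1 : ℂ), (0 : A))
    nlinarith
  have h8 : p ((0 : ℂ), x.snd) = q x.snd := rfl
  rw [h6]
  refine (map_add_le_add p _ _).trans ?_
  rw [h8]
  linarith

include H2 in
lemma delta_bound (r : Seminorm ℂ (PT (ℂ × A) (ℂ × A))) (hr : Continuous r) :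
    ∃ C : ℝ, ∀ S : Finset (Idp A), r (delta S) ≤ C := by
  obtain ⟨p, q, hp, hq, hpq⟩ := (pt_isContBilin (X := ℂ × A) (Y := ℂ × A)).exists_bound r hr
  obtain ⟨C, hC⟩ := signed_bound Φ H2 p hp
  obtain ⟨D, hD⟩ := signed_bound Φ H2 q hq
  refine ⟨C * D, fun S => ?_⟩
  have := sign_trick pt_isContBilin r S.powerset (fun T => (atom S T).toProd)
    (fun T => (atom S T).toProd) (C * D) 0 0 (by
      intro ε hε
      simp only [zero_add]
      refine (hpq _ _).trans ?_
      exact mul_le_mul (hC S ε hε) (hD S ε hε) (apply_nonneg q _)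
        ((apply_nonneg p _).trans (hC S ε hε)))
  rw [pt_isContBilin.zero_left, zero_add] at this
  exact this

include H2 in
/-- Equicontinuity. -/
lemma equi (r : Seminorm ℂ (PT (ℂ × A) (ℂ × A))) (hr : Continuous r) :
    ∃ p : Seminorm ℂ (PT (ℂ × A) (ℂ × A)), Continuous p ∧
      ∀ (S : Finset (Idp A)) z, r (envMul (theta z) (delta S)) ≤ p z := by
  obtain ⟨p, q, hp, hq, hpq⟩ := (isEnv (A := A)).mul_bilin.exists_bound r hr
  obtain ⟨C, hC⟩ := delta_bound Φ H2 q hq
  have hC0 : 0 ≤ C := (apply_nonneg q _).trans (hC ∅)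
  let p' : Seminorm ℂ (PT (ℂ × A) (ℂ × A)) := p.comp (theta_lin (A := A)).toCLM.toLinearMap
  have hp' : Continuous p' := hp.comp theta_lin.cont
  refine ⟨(Real.toNNReal C) • p', Continuous.const_smul hp' _, fun S z => ?_⟩
  have : ((Real.toNNReal C) • p') z = C * p (theta z) := by
    rw [smul_apply, NNReal.smul_def, Real.coe_toNNReal _ hC0]
    rfl
  rw [this, mul_comm]
  exact (hpq _ _).trans (mul_le_mul_of_nonneg_left (hC S) (apply_nonneg p _))

include H2 in
theorem main_tendsto (H1 : ∀ a : A, a ∈ closure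
    ((Submodule.span ℂ {u : A | u * u = u} : Submodule ℂ A) : Set A))
    (z : PT (ℂ × A) (ℂ × A)) :
    Tendsto (fun S : Finset (Idp A) => envMul (theta z) (delta S)) atTop (𝓝 0) := by
  refine pt_closure (P := fun z => Tendsto (fun S : Finset (Idp A) =>
    envMul (theta z) (delta S)) atTop (𝓝 0)) ?_ ?_ ?_ ?_ z
  · refine closed_tendsto (fun (S : Finset (Idp A)) z => envMul (theta z) (delta S)) ?_ ?_
    · intro S x y
      rw [theta_lin.add, isEnv.mul_bilin.add_left]
    · exact fun r hr => equi Φ H2 r hr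
  · have : ∀ S : Finset (Idp A), envMul (theta 0) (delta S) = 0 := by
      intro S
      have h0 : theta (0 : PT (ℂ × A) (ℂ × A)) = 0 := map_zero (theta_lin (A := A)).toCLM
      rw [h0, isEnv.mul_bilin.zero_left]
    simp only [this]
    exact tendsto_const_nhds
  · intro a b
    obtain ⟨b, rfl⟩ := Unitization.toProd_surjective b
    -- the set of good `a`
    have hclosed : IsClosed {a : ℂ × A | Tendsto (fun S : Finset (Idp A) =>
        envMul (theta (pt a b.toProd)) (delta S)) atTop (𝓝 0)} := by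
      refine closed_tendsto (fun (S : Finset (Idp A)) a =>
        envMul (theta (pt a b.toProd)) (delta S)) ?_ ?_
      · intro S x y
        rw [pt_isContBilin.add_left, theta_lin.add, isEnv.mul_bilin.add_left]
      · intro r hr
        obtain ⟨p, hp, hpb⟩ := equi Φ H2 r hr
        refine ⟨p.comp (pt_isContBilin.isContLin_left b.toProd).toCLM.toLinearMap,
          hp.comp (pt_isContBilin.cont_left _), fun S a => hpb S _⟩
    have hscal : ∀ x : Unitization ℂ A, Scal x → Tendsto (fun S : Finset (Idp A) =>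
        envMul (theta (pt x.toProd b.toProd)) (delta S)) atTop (𝓝 0) := by
      rintro x ⟨S₀, hS₀⟩
      refine tendsto_const_nhds.congr' ?_
      filter_upwards [Filter.eventually_ge_atTop S₀] with S hS
      exact (theta_delta_eq_zero (hS₀ S hS)).symm
    have hA : ∀ a : A, Tendsto (fun S : Finset (Idp A) =>
        envMul (theta (pt ((0 : ℂ), a) b.toProd)) (delta S)) atTop (𝓝 0) := by
      intro a
      have hc2 : IsClosed {a : A | Tendsto (fun S : Finset (Idp A) =>
        envMul (theta (pt ((0 : ℂ), a) b.toProd)) (delta S)) atTop (𝓝 0)} :=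
        hclosed.preimage (by fun_prop : Continuous fun a : A => ((0 : ℂ), a))
      have := closure_minimal (s := ((Submodule.span ℂ {u : A | u * u = u} :
        Submodule ℂ A) : Set A)) ?_ hc2 (H1 a)
      · exact this
      · intro x hx
        exact hscal _ (scal_span hx)
    have e : a = a.1 • (1 : Unitization ℂ A).toProd + ((0 : ℂ), a.2) := by
      ext
      · simp
      · simp
    rw [e]
    have h1 := hscal _ (scal_smul a.1 (scal_one (A := A)))
    have h2 := hA a.2
    have h3 := h1.add h2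
    rw [add_zero] at h3
    refine h3.congr fun S => ?_
    have e2 : (a.1 • (1 : Unitization ℂ A)).toProd = a.1 • (1 : Unitization ℂ A).toProd := rfl
    rw [pt_isContBilin.add_left, theta_lin.add, isEnv.mul_bilin.add_left, e2]
  · intro a b ha hb
    have := ha.add hb
    rw [add_zero] at this
    refine this.congr fun S => ?_
    rw [theta_lin.add, isEnv.mul_bilin.add_left]

include H2 in
/-- The general theorem: a commutative polynormed algebra with dense span of the idempotents,
whose topology is weaker than uniform convergence on a set of characters, has a bounded right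
approximate identity in the diagonal ideal. -/
theorem hasDiagonalBRAI_of_idempotents (H1 : ∀ a : A, a ∈ closure
    ((Submodule.span ℂ {u : A | u * u = u} : Submodule ℂ A) : Set A)) :
    HasDiagonalBRAI A := by
  refine ⟨PT (ℂ × A) (ℂ × A), inferInstance, inferInstance, inferInstance, inferInstance,
    pt, envMul, envPi, isEnv, Finset (Idp A), inferInstance, inferInstance, inferInstance,
    eNet, envPi_eNet, ?_, ?_⟩
  · rw [(PolynormableSpace.withSeminorms ℂ
      (PT (ℂ × A) (ℂ × A))).isVonNBounded_iff_seminorm_bounded]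
    rintro ⟨r, hr⟩
    obtain ⟨C, hC⟩ := delta_bound Φ H2 r hr
    have hC0 : 0 ≤ C := (apply_nonneg r _).trans (hC ∅)
    refine ⟨r (pt (1 : Unitization ℂ A).toProd (1 : Unitization ℂ A).toProd) + C + 1, ?_, ?_⟩
    · have := apply_nonneg r (pt (1 : Unitization ℂ A).toProd (1 : Unitization ℂ A).toProd)
      positivity
    · rintro _ ⟨S, rfl⟩
      have h1 : r (eNet S) ≤ r (pt (1 : Unitization ℂ A).toProd (1 : Unitization ℂ A).toProd) +
        r (delta S) := map_sub_le_add r _ _
      have h2 := hC S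
      show r (eNet S) < _
      linarith
  · intro x hx
    have h1 : theta x = x := by
      unfold theta
      rw [hx, pt_isContBilin.zero_right, sub_zero]
    have h2 := main_tendsto Φ H2 H1 x
    rw [h1] at h2
    have h3 := (tendsto_const_nhds (x := x)).sub h2
    rw [sub_zero] at h3
    refine h3.congr fun S => ?_
    unfold eNet
    rw [isEnv.mul_bilin.sub_right, envMul_one]

end Main

end

end Pool.Agent.Helper5
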