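import Mathlib
import Pool.Agent.Helper5.Polynormed
import Pool.Agent.Helper5.Amen

/-!
A commutative C*-algebra on the binary tree with its branches.
-/

namespace Pool.Agent.Helper5

open Filter Topology OnePoint Classical


noncomputable section

/-- Branches of the binary tree. -/
abbrev Br : Type := ℕ → Bool

/-- Convergent sequences. -/
abbrev Kc : Type := C(OnePoint ℕ, ℂ)

/-- Bounded families of convergent sequences, indexed by branches. -/
abbrev Lb : Type := lp (fun _ : Br => Kc) (⊤ : ENNReal)

/-- The families that come from functions on the binary tree: the value at level `n` of the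
branch `b` depends only on the first `n` digits of `b`. -/
def Compat (F : Br → Kc) : Prop :=
  ∀ (b c : Br) (n : ℕ), (∀ i < n, b i = c i) → F b (n : OnePoint ℕ) = F c (n : OnePoint ℕ)

/-- Idempotents of the tree algebra. -/
def U0 : Set Lb := {u | u * u = u ∧ Compat u ∧ {b | u b ∞ ≠ 0}.Countable}

lemma U0_mul {u v : Lb} (hu : u ∈ U0) (hv : v ∈ U0) : u * v ∈ U0 := by
  refine ⟨?_, ?_, ?_⟩
  · rw [mul_mul_mul_comm, hu.1, hv.1]
  · intro b c n h
    have h1 := hu.2.1 b c n h
    have h2 := hv.2.1 b c n h
    rw [lp.infty_coeFn_mul]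
    simp only [Pi.mul_apply, ContinuousMap.mul_apply, h1, h2]
  · refine hu.2.2.mono ?_
    intro b hb h
    apply hb
    rw [lp.infty_coeFn_mul]
    simp only [Pi.mul_apply, ContinuousMap.mul_apply, h, zero_mul]

lemma span_U0_mul {a b : Lb} (ha : a ∈ Submodule.span ℂ U0) (hb : b ∈ Submodule.span ℂ U0) :
    a * b ∈ Submodule.span ℂ U0 := by
  have h := Submodule.mul_mem_mul ha hb
  rw [Submodule.span_mul_span] at h
  refine Submodule.span_mono ?_ h
  rintro _ ⟨u, hu, v, hv, rfl⟩
  exact U0_mul hu hv

/-- The tree algebra: the closed span of the idempotents. -/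
def A0sub : NonUnitalSubalgebra ℂ Lb where
  carrier := closure (Submodule.span ℂ U0 : Set Lb)
  add_mem' := (Submodule.span ℂ U0).topologicalClosure.add_mem
  zero_mem' := (Submodule.span ℂ U0).topologicalClosure.zero_mem
  smul_mem' c x hx := (Submodule.span ℂ U0).topologicalClosure.smul_mem c hx
  mul_mem' := by
    intro a b ha hb
    exact map_mem_closure₂ continuous_mul ha hb (fun x hx y hy => span_U0_mul hx hy)

lemma A0_closed : IsClosed (A0sub : Set Lb) := isClosed_closure

/-- The tree algebra as a type. -/
def A0 : Type := A0sub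

instance : NonUnitalNormedCommRing A0 :=
  inferInstanceAs (NonUnitalNormedCommRing A0sub)

instance : Module ℂ A0 := inferInstanceAs (Module ℂ A0sub)

instance : NormedSpace ℂ A0 where
  norm_smul_le c x := norm_smul_le c (x.1 : Lb)

instance : IsScalarTower ℂ A0 A0 := ⟨fun c x y => Subtype.ext (smul_mul_assoc c (x.1 : Lb) y.1)⟩

instance : SMulCommClass ℂ A0 A0 := ⟨fun c x y => Subtype.ext (mul_smul_comm c (x.1 : Lb) y.1).symm⟩

instance : CompleteSpace A0 := A0_closed.completeSpace_coe

lemma lb_apply_le (x : Lb) (b : Br) : ‖x b‖ ≤ ‖x‖ := lp.norm_apply_le_norm (by simp) x b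

lemma kc_apply_le (x : Kc) (t : OnePoint ℕ) : ‖x t‖ ≤ ‖x‖ := ContinuousMap.norm_coe_le_norm x t

lemma lb_continuous_apply (b : Br) (t : OnePoint ℕ) : Continuous fun x : Lb => x b t := by
  have h1 : Continuous fun x : Lb => x b :=
    (continuous_apply b).comp lp.uniformContinuous_coe.continuous
  exact (ContinuousEvalConst.continuous_eval_const t).comp h1

/-- Elements of the tree algebra come from functions on the tree. -/
lemma A0_compat {x : Lb} (hx : x ∈ A0sub) : Compat x := by
  intro b c n h
  have hcl : IsClosed {x : Lb | x b (n : OnePoint ℕ) = x c (n : OnePoint ℕ)} :=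
    isClosed_eq (lb_continuous_apply b n) (lb_continuous_apply c n)
  refine closure_minimal ?_ hcl hx
  intro y hy
  simp only [Set.mem_ofPred_eq]
  induction hy using Submodule.span_induction with
  | mem y hy => exact hy.2.1 b c n h
  | zero => rfl
  | add y z _ _ hy hz =>
    rw [lp.coeFn_add]
    simp only [Pi.add_apply, ContinuousMap.add_apply, hy, hz]
  | smul k y _ hy =>
    rw [lp.coeFn_smul]
    simp only [Pi.smul_apply, ContinuousMap.smul_apply, hy]

/-- Elements of the tree algebra have non-zero limits along countably many branches only. -/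
lemma A0_countable {x : Lb} (hx : x ∈ A0sub) : {b | x b ∞ ≠ 0}.Countable := by
  have hspan : ∀ y ∈ Submodule.span ℂ U0, {b | (y : Lb) b ∞ ≠ 0}.Countable := by
    intro y hy
    induction hy using Submodule.span_induction with
    | mem y hy => exact hy.2.2
    | zero => simp
    | add y z _ _ hy hz =>
      refine (hy.union hz).mono ?_
      intro b hb
      by_contra hcon
      simp only [Set.mem_union, Set.mem_ofPred_eq, not_or, not_not] at hcon
      apply hb
      rw [lp.coeFn_add]
      simp only [Pi.add_apply, ContinuousMap.add_apply, hcon.1, hcon.2, add_zero]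
    | smul k y _ hy =>
      refine hy.mono ?_
      intro b hb h
      apply hb
      rw [lp.coeFn_smul]
      simp only [Pi.smul_apply, ContinuousMap.smul_apply, h, smul_zero]
  obtain ⟨y, hy, hlim⟩ := mem_closure_iff_seq_limit.1 (show x ∈ closure _ from hx)
  refine (Set.countable_iUnion fun n => hspan (y n) (hy n)).mono ?_
  intro b hb
  by_contra hcon
  simp only [Set.mem_iUnion, Set.mem_ofPred_eq, not_exists, not_not] at hcon
  apply hb
  have h1 : Tendsto (fun n => y n b ∞) atTop (𝓝 (x b ∞)) :=
    ((lb_continuous_apply b ∞).tendsto x).comp hlim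
  simp only [hcon] at h1
  exact (tendsto_nhds_unique h1 tendsto_const_nhds)

/-- The indicator of the branch `b` along the branch `c`. -/
def ebFun (b c : Br) : Kc :=
  OnePoint.continuousMapMkNat (fun n => if ∀ i < n, c i = b i then 1 else 0)
    (if c = b then 1 else 0) (by
      by_cases h : c = b
      · subst h
        simp
      · rw [if_neg h]
        obtain ⟨i, hi⟩ := Function.ne_iff.1 h
        refine tendsto_const_nhds.congr' ?_
        filter_upwards [eventually_gt_atTop i] with n hn
        rw [if_neg]
        intro hcon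
        exact hi (hcon i hn))

lemma ebFun_nat (b c : Br) (n : ℕ) :
    ebFun b c (n : OnePoint ℕ) = if ∀ i < n, c i = b i then 1 else 0 := rfl

lemma ebFun_infty (b c : Br) : ebFun b c ∞ = if c = b then 1 else 0 := rfl

lemma ebFun_self (b : Br) (t : OnePoint ℕ) : ebFun b b t = 1 := by
  induction t using OnePoint.rec with
  | infty => rw [ebFun_infty, if_pos rfl]
  | coe n => rw [ebFun_nat, if_pos (fun _ _ => rfl)]

lemma ebFun_norm (b c : Br) : ‖ebFun b c‖ ≤ 1 := by
  rw [ContinuousMap.norm_le _ zero_le_one]
  intro t
  induction t using OnePoint.rec with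
  | infty => rw [ebFun_infty]; split_ifs <;> simp
  | coe n => rw [ebFun_nat]; split_ifs <;> simp

/-- The indicator of the branch `b`. -/
def eb (b : Br) : Lb := ⟨ebFun b, memℓp_infty ⟨1, by rintro _ ⟨c, rfl⟩; exact ebFun_norm b c⟩⟩

lemma eb_apply (b c : Br) : eb b c = ebFun b c := rfl

lemma eb_mem (b : Br) : eb b ∈ A0sub := by
  apply subset_closure
  apply Submodule.subset_span
  refine ⟨?_, ?_, ?_⟩
  · ext c t
    rw [lp.infty_coeFn_mul]
    simp only [Pi.mul_apply, ContinuousMap.mul_apply, eb_apply]
    induction t using OnePoint.rec with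
    | infty => rw [ebFun_infty]; split_ifs <;> simp
    | coe n => rw [ebFun_nat]; split_ifs <;> simp
  · intro c d n h
    rw [eb_apply, eb_apply, ebFun_nat, ebFun_nat]
    have : (∀ i < n, c i = b i) ↔ (∀ i < n, d i = b i) :=
      ⟨fun hh i hi => (h i hi).symm.trans (hh i hi), fun hh i hi => (h i hi).trans (hh i hi)⟩
    simp only [this]
  · refine (Set.countable_singleton b).mono ?_
    intro c hc
    by_contra hcon
    apply hc
    have h' : c ≠ b := fun h => hcon (Set.mem_singleton_iff.2 h)
    rw [eb_apply, ebFun_infty, if_neg h']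

/-- Finite sets of branches have a local unit. -/
lemma exists_local_unit (B : Finset Br) : ∃ a : A0, ∀ b ∈ B, (a.1 : Lb) b = 1 := by
  induction B using Finset.induction_on with
  | empty => exact ⟨0, by simp⟩
  | insert c B hc ih =>
    obtain ⟨a, ha⟩ := ih
    let e : A0 := ⟨eb c, eb_mem c⟩
    refine ⟨a + e - a * e, ?_⟩
    have hc1 : eb c c = 1 := by
      ext t
      exact ebFun_self c t
    have e : ((a + e - a * e : A0).1 : Lb) = (a.1 : Lb) + eb c - (a.1 : Lb) * eb c := rfl
    rw [e]
    intro b hb
    rw [lp.coeFn_sub, lp.coeFn_add, lp.infty_coeFn_mul]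
    simp only [Pi.sub_apply, Pi.add_apply, Pi.mul_apply]
    rcases Finset.mem_insert.1 hb with rfl | hb
    · rw [hc1]; ring
    · rw [ha b hb]; ring

end

end Pool.Agent.Helper5
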