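import Mathlib
import Pool.Agent.Helper5.Polynormed
import Pool.Agent.Helper5.Amen
import Pool.Agent.Helper5.Brai
import Pool.Agent.Helper5.TreeAlg

/-!
Powers of the tree algebra: they are Arens-Michael algebras and their diagonal ideal has a bounded
right approximate identity.
-/

namespace Pool.Agent.Helper5

open Filter Topology OnePoint Classical

noncomputable section

variable (D : Type)

instance : IsPolyAlg (D → A0) where
  uniformAddGroup := inferInstance
  continuousSMul := inferInstance
  polynormable := inferInstance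
  t2 := inferInstance
  complete := inferInstance
  mul_bilin :=
    { add_left := fun x x' y => add_mul x x' y
      smul_left := fun c x y => smul_mul_assoc c x y
      add_right := fun x y y' => mul_add x y y'
      smul_right := fun c x y => mul_smul_comm c x y
      cont := continuous_mul }

/-- The seminorms `a ↦ ‖a d‖`. -/
def coordFam : (d : D) → SeminormFamily ℂ A0 (Fin 1) := fun _ _ => normSeminorm ℂ A0

lemma coordFam_with : WithSeminorms (SeminormFamily.sigma
    (fun d => (coordFam D d).comp (LinearMap.proj d : (D → A0) →ₗ[ℂ] A0))) :=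
  withSeminorms_pi (fun _ => norm_withSeminorms ℂ A0)

theorem isArensMichael [Nonempty D] : IsArensMichael (D → A0) := by
  have : Nonempty (Σ _ : D, Fin 1) := ⟨⟨Classical.arbitrary D, 0⟩⟩
  refine ⟨inferInstance, (Σ _ : D, Fin 1), inferInstance, _, coordFam_with D, ?_⟩
  rintro ⟨d, i⟩ a b
  exact norm_mul_le (a d) (b d)

variable {D}

/-- Evaluation characters. -/
def evChar (d : D) (b : Br) (t : OnePoint ℕ) : (D → A0) →ₙₐ[ℂ] ℂ where
  toFun a := ((a d).1 : Lb) b t
  map_smul' c a := by
    show ((c • (a d).1 : Lb)) b t = c * ((a d).1 : Lb) b t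
    rw [lp.coeFn_smul]
    rfl
  map_zero' := rfl
  map_add' x y := by
    show (((x d).1 + (y d).1 : Lb)) b t = ((x d).1 : Lb) b t + ((y d).1 : Lb) b t
    rw [lp.coeFn_add]
    rfl
  map_mul' x y := by
    show (((x d).1 * (y d).1 : Lb)) b t = ((x d).1 : Lb) b t * ((y d).1 : Lb) b t
    rw [lp.infty_coeFn_mul]
    rfl

lemma char_control (q : Seminorm ℂ (D → A0)) (hq : Continuous q) :
    ∃ C : ℝ, ∀ (a : D → A0) (M : ℝ), 0 ≤ M →
      (∀ χ ∈ (Set.range fun i : D × Br × OnePoint ℕ => evChar i.1 i.2.1 i.2.2), ‖χ a‖ ≤ M) →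
      q a ≤ C * M := by
  obtain ⟨s, C, -, hs⟩ := Seminorm.bound_of_continuous (coordFam_with D) q hq
  refine ⟨C, fun a M hM h => ?_⟩
  have h1 : q a ≤ (C : ℝ) * s.sup (SeminormFamily.sigma
    (fun d => (coordFam D d).comp (LinearMap.proj d : (D → A0) →ₗ[ℂ] A0))) a := hs a
  refine h1.trans (mul_le_mul_of_nonneg_left ?_ C.2)
  refine Seminorm.finset_sup_apply_le hM ?_
  rintro ⟨d, i⟩ _
  show ‖a d‖ ≤ M
  show ‖((a d).1 : Lb)‖ ≤ M
  refine lp.norm_le_of_forall_le hM fun b => ?_
  rw [ContinuousMap.norm_le _ hM]
  intro t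
  exact h _ ⟨(d, b, t), rfl⟩

/-- The idempotents span a dense subspace of the tree algebra. -/
lemma A0_dense (x : A0) : x ∈ closure ((Submodule.span ℂ {u : A0 | u * u = u} :
    Submodule ℂ A0) : Set A0) := by
  have hind : IsInducing (fun y : A0 => (y.1 : Lb)) := IsInducing.subtypeVal
  rw [hind.closure_eq_preimage_closure_image]
  show x.1 ∈ closure _
  refine closure_mono ?_ x.2
  let ι : A0 →ₗ[ℂ] Lb := { toFun := fun y => y.1, map_add' := fun _ _ => rfl,
                           map_smul' := fun _ _ => rfl }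
  have h1 : (fun y : A0 => (y.1 : Lb)) '' (Submodule.span ℂ {u : A0 | u * u = u} : Set A0) =
      (Submodule.span ℂ (ι '' {u : A0 | u * u = u}) : Set Lb) := by
    rw [← Submodule.map_span]
    rfl
  rw [h1]
  refine Submodule.span_mono ?_
  intro u hu
  refine ⟨⟨u, subset_closure (Submodule.subset_span hu)⟩, ?_, rfl⟩
  exact Subtype.ext hu.1

lemma PA_dense (a : D → A0) : a ∈ closure ((Submodule.span ℂ {u : D → A0 | u * u = u} :
    Submodule ℂ (D → A0)) : Set (D → A0)) := by
  let V := (Submodule.span ℂ {u : D → A0 | u * u = u}).topologicalClosure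
  have hsingle : ∀ (d : D) (x : A0), (Pi.single d x : D → A0) ∈ V := by
    intro d x
    have hcl : IsClosed {x : A0 | (Pi.single d x : D → A0) ∈ V} := by
      apply IsClosed.preimage _ (Submodule.isClosed_topologicalClosure _)
      exact continuous_single (A := fun _ : D => A0) d
    refine closure_minimal ?_ hcl (A0_dense x)
    intro y hy
    apply subset_closure
    let σ : A0 →ₗ[ℂ] (D → A0) := LinearMap.single ℂ (fun _ => A0) d
    have h1 : σ y ∈ (Submodule.span ℂ {u : A0 | u * u = u}).map σ :=
      Submodule.mem_map_of_mem hy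
    rw [Submodule.map_span] at h1
    refine Submodule.span_mono ?_ h1
    rintro _ ⟨u, hu, rfl⟩
    show (Pi.single d u : D → A0) * Pi.single d u = Pi.single d u
    rw [← Pi.single_mul, hu]
  have hfin : ∀ F : Finset D, ∑ d ∈ F, (Pi.single d (a d) : D → A0) ∈ V := fun F =>
    V.sum_mem fun d _ => hsingle d (a d)
  have hlim : Tendsto (fun F : Finset D => ∑ d ∈ F, (Pi.single d (a d) : D → A0)) atTop
      (𝓝 a) := by
    rw [tendsto_pi_nhds]
    intro d
    refine tendsto_const_nhds.congr' ?_
    filter_upwards [eventually_ge_atTop ({d} : Finset D)] with F hF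
    have hd : d ∈ F := hF (Finset.mem_singleton_self d)
    rw [Finset.sum_apply, Finset.sum_eq_single d]
    · simp
    · intro e _ hne
      rw [Pi.single_eq_of_ne (Ne.symm hne)]
    · exact fun h => absurd hd h
  exact (Submodule.isClosed_topologicalClosure _).mem_of_tendsto hlim
    (Eventually.of_forall hfin)

/-- The diagonal ideal has a bounded right approximate identity. -/
theorem hasDiagonalBRAI : HasDiagonalBRAI (D → A0) :=
  hasDiagonalBRAI_of_idempotents _ char_control PA_dense

end

end Pool.Agent.Helper5
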