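import Mathlib
import Pool.Agent.Helper5.Polynormed
import Pool.Agent.Helper5.ProjTensor
import Pool.Agent.Helper5.Amen
import Pool.Agent.Helper5.Env
import Pool.Agent.Helper5.TreeAlg
import Pool.Agent.Helper5.TreeBrai

/-!
A bimodule over the powers of the tree algebra for which the image of `d₀` is not closed.
-/

namespace Pool.Agent.Helper5

open Filter Topology OnePoint Classical

noncomputable section

/-- Banach spaces are polynormed. -/
lemma isPolynormed_banach (E : Type*) [NormedAddCommGroup E] [NormedSpace ℂ E]
    [CompleteSpace E] : IsPolynormed E where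
  uniformAddGroup := inferInstance
  continuousSMul := inferInstance
  polynormable := inferInstance
  t2 := inferInstance
  complete := inferInstance

instance : IsPolynormed Kc := isPolynormed_banach Kc

instance : IsPolynormed ℂ := isPolynormed_banach ℂ

/-- Functions on the tree with limits along all branches. -/
def Xsub : Submodule ℂ (Br → Kc) where
  carrier := {F | Compat F}
  add_mem' := by
    intro F G hF hG b c n h
    simp only [Pi.add_apply, ContinuousMap.add_apply, hF b c n h, hG b c n h]
  zero_mem' := fun _ _ _ _ => rfl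
  smul_mem' := by
    intro k F hF b c n h
    simp only [Pi.smul_apply, ContinuousMap.smul_apply, hF b c n h]

lemma Xsub_closed : IsClosed (Xsub : Set (Br → Kc)) := by
  have : (Xsub : Set (Br → Kc)) = ⋂ (b : Br) (c : Br) (n : ℕ) (_ : ∀ i < n, b i = c i),
      {F | F b (n : OnePoint ℕ) = F c (n : OnePoint ℕ)} := by
    ext F
    simp only [Set.mem_iInter]
    rfl
  rw [this]
  refine isClosed_iInter fun b => isClosed_iInter fun c => isClosed_iInter fun n =>
    isClosed_iInter fun _ => isClosed_eq ?_ ?_
  · exact (ContinuousEvalConst.continuous_eval_const _).comp (continuous_apply b)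
  · exact (ContinuousEvalConst.continuous_eval_const _).comp (continuous_apply c)

/-- The space of functions on the tree with limits along all branches, with the topology of
uniform convergence on each branch. -/
def XT : Type := Xsub

instance : AddCommGroup XT := inferInstanceAs (AddCommGroup Xsub)

instance : Module ℂ XT := inferInstanceAs (Module ℂ Xsub)

instance : UniformSpace XT := inferInstanceAs (UniformSpace Xsub)

instance : IsPolynormed XT where
  uniformAddGroup := inferInstanceAs (IsUniformAddGroup Xsub.toAddSubgroup)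
  continuousSMul := inferInstanceAs (ContinuousSMul ℂ Xsub)
  polynormable := inferInstanceAs (PolynormableSpace ℂ Xsub)
  t2 := inferInstanceAs (T2Space Xsub)
  complete := Xsub_closed.completeSpace_coe

lemma XT_continuous_val : Continuous fun x : XT => x.1 := continuous_subtype_val

lemma XT_continuous_apply (b : Br) : Continuous fun x : XT => x.1 b :=
  (continuous_apply b).comp XT_continuous_val

variable {D : Type} (d₀ : D)

/-- The left action: multiplication by the coordinate `d₀`. -/
def lAct (a : D → A0) (x : XT) : XT :=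
  ⟨fun b => ((a d₀).1 : Lb) b * x.1 b, by
    intro b c n h
    have h1 := A0_compat (a d₀).2 b c n h
    have h2 := x.2 b c n h
    simp only [ContinuousMap.mul_apply, h1, h2]⟩

/-- The zero right action. -/
def rAct (_ : XT) (_ : D → A0) : XT := 0

lemma lAct_val (a : D → A0) (x : XT) (b : Br) :
    (lAct d₀ a x).1 b = ((a d₀).1 : Lb) b * x.1 b := rfl

lemma lAct_continuous : Continuous fun p : (D → A0) × XT => lAct d₀ p.1 p.2 := by
  apply Continuous.subtype_mk
  apply continuous_pi
  intro b
  have h1 : Continuous fun p : (D → A0) × XT => ((p.1 d₀).1 : Lb) b := by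
    have e1 : Continuous fun x : Lb => x b :=
      (continuous_apply b).comp lp.uniformContinuous_coe.continuous
    have e2 : Continuous fun x : A0 => (x.1 : Lb) := continuous_subtype_val
    exact e1.comp (e2.comp ((continuous_apply d₀).comp continuous_fst))
  exact h1.mul ((XT_continuous_apply b).comp continuous_snd)

lemma lAct_bilin : IsContBilin (lAct d₀ : (D → A0) → XT → XT) where
  add_left a a' x := by
    apply Subtype.ext
    funext b
    show ((((a d₀).1 + (a' d₀).1 : Lb)) b) * x.1 b = ((a d₀).1 : Lb) b * x.1 b +
      ((a' d₀).1 : Lb) b * x.1 b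
    rw [lp.coeFn_add, Pi.add_apply, add_mul]
  smul_left c a x := by
    apply Subtype.ext
    funext b
    show (((c • (a d₀).1 : Lb)) b) * x.1 b = c • (((a d₀).1 : Lb) b * x.1 b)
    rw [lp.coeFn_smul, Pi.smul_apply, smul_mul_assoc]
  add_right a x x' := by
    apply Subtype.ext
    funext b
    exact mul_add _ _ _
  smul_right c a x := by
    apply Subtype.ext
    funext b
    exact mul_smul_comm c _ _
  cont := lAct_continuous d₀

lemma rAct_bilin : IsContBilin (rAct : XT → (D → A0) → XT) where
  add_left _ _ _ := (add_zero 0).symm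
  smul_left c _ _ := (smul_zero c).symm
  add_right _ _ _ := (add_zero 0).symm
  smul_right c _ _ := (smul_zero c).symm
  cont := continuous_const

lemma isBimod : IsBimod (lAct d₀ : (D → A0) → XT → XT) rAct where
  left_bilin := lAct_bilin d₀
  right_bilin := rAct_bilin
  left_mul a b x := by
    apply Subtype.ext
    funext c
    show ((((a d₀).1 * (b d₀).1 : Lb)) c) * x.1 c =
      ((a d₀).1 : Lb) c * (((b d₀).1 : Lb) c * x.1 c)
    rw [lp.infty_coeFn_mul, Pi.mul_apply, mul_assoc]
  right_mul _ _ _ := rfl
  left_right a x b := ((lAct_bilin d₀).zero_right a).symm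

/-- The constant function. -/
def oneX : XT := ⟨fun _ => 1, fun _ _ _ _ => rfl⟩

/-- The constant function is in the closure of the image of `d₀`. -/
lemma one_mem_closure : oneX ∈ closure (Set.range fun z => ptLift (d0_bilin (isBimod d₀)) z) := by
  choose a ha using exists_local_unit
  let f : Finset Br → XT := fun B => lAct d₀ (fun _ => a B) oneX
  have hlim : Tendsto f atTop (𝓝 oneX) := by
    have hind : IsInducing (fun x : XT => x.1) := IsInducing.subtypeVal
    rw [hind.tendsto_nhds_iff, tendsto_pi_nhds]
    intro b
    refine tendsto_const_nhds.congr' ?_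
    filter_upwards [eventually_ge_atTop ({b} : Finset Br)] with B hB
    have hb : b ∈ B := hB (Finset.mem_singleton_self b)
    show (1 : Kc) = ((a B).1 : Lb) b * 1
    rw [ha B b hb, mul_one]
  refine mem_closure_of_tendsto hlim (Eventually.of_forall fun B => ?_)
  refine ⟨pt oneX (-(fun _ => a B)), ?_⟩
  simp only [ptLift_pt]
  show (0 : XT) - lAct d₀ (-(fun _ => a B)) oneX = f B
  rw [(lAct_bilin d₀).neg_left, zero_sub, neg_neg]

/-- The branch that starts with the list `s` and continues with `false`. -/
def rep (s : List Bool) : Br := fun i => s.getD i false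

lemma exists_rep (b : Br) (n : ℕ) : ∃ s : List Bool, ∀ i < n, rep s i = b i := by
  refine ⟨List.ofFn fun i : Fin n => b i, fun i hi => ?_⟩
  unfold rep
  rw [List.getD_eq_getElem?_getD, List.getElem?_ofFn]
  simp [hi]

/-- The linear map `x ⊗ a ↦ x(s) a`. -/
lemma ev_bilin (s : List Bool) (n : ℕ) :
    IsContBilin (fun (x : XT) (a : D → A0) => (x.1 (rep s) (n : OnePoint ℕ)) • a) where
  add_left x x' a := by
    show ((x.1 + x'.1) (rep s) (n : OnePoint ℕ)) • a = _
    rw [Pi.add_apply, ContinuousMap.add_apply, add_smul]
  smul_left c x a := by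
    show ((c • x.1) (rep s) (n : OnePoint ℕ)) • a = _
    rw [Pi.smul_apply, ContinuousMap.smul_apply, smul_smul, smul_eq_mul]
  add_right x a a' := smul_add _ _ _
  smul_right c x a := smul_comm _ _ _
  cont := by
    have h : Continuous fun x : XT => x.1 (rep s) (n : OnePoint ℕ) :=
      (ContinuousEvalConst.continuous_eval_const _).comp (XT_continuous_apply (rep s))
    exact (h.comp continuous_fst).smul continuous_snd

lemma evA_continuous (γ : Br) : Continuous fun a : D → A0 => ((a d₀).1 : Lb) γ ∞ := by
  have e2 : Continuous fun x : A0 => (x.1 : Lb) := continuous_subtype_val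
  exact (lb_continuous_apply γ ∞).comp (e2.comp (continuous_apply d₀))

/-- The linear map `x ⊗ a ↦ a(γ) x|γ`. -/
lemma branch_bilin (γ : Br) :
    IsContBilin (fun (x : XT) (a : D → A0) => (((a d₀).1 : Lb) γ ∞) • x.1 γ) where
  add_left x x' a := smul_add _ _ _
  smul_left c x a := smul_comm (((a d₀).1 : Lb) γ ∞) c (x.1 γ)
  add_right x a a' := by
    show ((((a d₀).1 + (a' d₀).1 : Lb)) γ ∞) • x.1 γ = _
    rw [lp.coeFn_add, Pi.add_apply, ContinuousMap.add_apply, add_smul]
  smul_right c x a := by
    show (((c • (a d₀).1 : Lb)) γ ∞) • x.1 γ = _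
    rw [lp.coeFn_smul, Pi.smul_apply, ContinuousMap.smul_apply, smul_smul, smul_eq_mul]
  cont := by
    have h : Continuous fun a : D → A0 => ((a d₀).1 : Lb) γ ∞ := evA_continuous d₀ γ
    exact (h.comp continuous_snd).smul ((XT_continuous_apply γ).comp continuous_fst)

lemma uncountable_Br : ¬ (Set.univ : Set Br).Countable := by
  intro h
  have h2 : Countable Br := Set.countable_univ_iff.1 h
  obtain ⟨f, hf⟩ := exists_surjective_nat Br
  obtain ⟨n, hn⟩ := hf (fun n => !(f n n))
  have := congrFun hn n
  simp at this

/-- The constant function is not in the image of `d₀`. -/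
lemma one_not_mem : oneX ∉ Set.range fun z => ptLift (d0_bilin (isBimod (D := D) d₀)) z := by
  rintro ⟨z, hz⟩
  -- choose a branch with vanishing limits
  have hcount : (⋃ (s : List Bool) (n : ℕ),
      {b : Br | (((ptLift (ev_bilin (D := D) s n) z) d₀).1 : Lb) b ∞ ≠ 0}).Countable :=
    Set.countable_iUnion fun s => Set.countable_iUnion fun n => A0_countable (Subtype.property _)
  obtain ⟨γ, hγ⟩ : ∃ γ : Br, ∀ (s : List Bool) (n : ℕ),
      (((ptLift (ev_bilin (D := D) s n) z) d₀).1 : Lb) γ ∞ = 0 := by
    by_contra hcon
    push Not at hcon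
    apply uncountable_Br
    refine hcount.mono ?_
    intro γ _
    obtain ⟨s, n, h⟩ := hcon γ
    exact Set.mem_iUnion.2 ⟨s, Set.mem_iUnion.2 ⟨n, h⟩⟩
  -- the value of the branch map at finite levels
  have hn : ∀ n : ℕ, (ptLift (branch_bilin d₀ γ) z) (n : OnePoint ℕ) = 0 := by
    intro n
    obtain ⟨s, hs⟩ := exists_rep γ n
    have e := pt_ext (X := XT) (Y := D → A0) (Z := ℂ)
      (f := fun z => (ptLift (branch_bilin d₀ γ) z) (n : OnePoint ℕ))
      (g := fun z => (((ptLift (ev_bilin (D := D) s n) z) d₀).1 : Lb) γ ∞)
      ⟨fun x y => by rw [map_add, ContinuousMap.add_apply],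
        fun c x => by rw [_root_.map_smul, ContinuousMap.smul_apply],
        (ContinuousEvalConst.continuous_eval_const _).comp (ptLift _).continuous⟩
      ⟨fun x y => by
          rw [map_add]
          show ((((ptLift (ev_bilin (D := D) s n) x) d₀).1 +
            ((ptLift (ev_bilin (D := D) s n) y) d₀).1 : Lb)) γ ∞ = _
          rw [lp.coeFn_add, Pi.add_apply, ContinuousMap.add_apply],
        fun c x => by
          rw [_root_.map_smul]
          show ((c • ((ptLift (ev_bilin (D := D) s n) x) d₀).1 : Lb)) γ ∞ = _
          rw [lp.coeFn_smul, Pi.smul_apply, ContinuousMap.smul_apply],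
        (evA_continuous d₀ γ).comp (ptLift (ev_bilin (D := D) s n)).continuous⟩
      (by
        intro x a
        simp only [ptLift_pt]
        show (((a d₀).1 : Lb) γ ∞) * x.1 γ (n : OnePoint ℕ) =
          (((x.1 (rep s) (n : OnePoint ℕ)) • (a d₀).1 : Lb)) γ ∞
        rw [lp.coeFn_smul, Pi.smul_apply, ContinuousMap.smul_apply, smul_eq_mul,
          x.2 (rep s) γ n hs, mul_comm])
    have e2 := congrFun e z
    simp only at e2
    rw [e2]
    exact hγ s n
  have h0 : (ptLift (branch_bilin d₀ γ) z) ∞ = 0 := by
    have h1 := (OnePoint.continuous_iff_from_discrete _).1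
      (ptLift (branch_bilin d₀ γ) z).continuous
    simp only [hn] at h1
    exact (tendsto_nhds_unique h1 tendsto_const_nhds)
  have e := pt_ext (X := XT) (Y := D → A0) (Z := ℂ)
      (f := fun z => (ptLift (branch_bilin d₀ γ) z) ∞)
      (g := fun z => - ((ptLift (d0_bilin (isBimod (D := D) d₀)) z).1 γ ∞))
      ⟨fun x y => by rw [map_add, ContinuousMap.add_apply],
        fun c x => by rw [_root_.map_smul, ContinuousMap.smul_apply],
        (ContinuousEvalConst.continuous_eval_const _).comp (ptLift _).continuous⟩
      ⟨fun x y => by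
          rw [map_add]
          show -(((ptLift (d0_bilin (isBimod (D := D) d₀)) x).1 +
            (ptLift (d0_bilin (isBimod (D := D) d₀)) y).1) γ ∞) = _
          rw [Pi.add_apply, ContinuousMap.add_apply, neg_add],
        fun c x => by
          rw [_root_.map_smul]
          show -((c • (ptLift (d0_bilin (isBimod (D := D) d₀)) x).1) γ ∞) = _
          rw [Pi.smul_apply, ContinuousMap.smul_apply, smul_neg],
        (((ContinuousEvalConst.continuous_eval_const _).comp
          (XT_continuous_apply γ)).comp (ptLift _).continuous).neg⟩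
      (by
        intro x a
        simp only [ptLift_pt]
        show (((a d₀).1 : Lb) γ ∞) * x.1 γ ∞ = -(((0 : XT) - lAct d₀ a x).1 γ ∞)
        have e5 : ((0 : XT) - lAct d₀ a x).1 = 0 - (lAct d₀ a x).1 := rfl
        rw [e5, Pi.sub_apply, ContinuousMap.sub_apply, lAct_val]
        simp)
  have e2 := congrFun e z
  simp only at e2 hz
  rw [h0, hz] at e2
  have e3 : (oneX.1 γ) ∞ = 1 := rfl
  rw [e3] at e2
  norm_num at e2

/-- The powers of the tree algebra are not amenable. -/
theorem not_amenable [Nonempty D] : ¬ Amenable (D → A0) := by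
  intro h
  let d₀ : D := Classical.arbitrary D
  have h1 := h XT (lAct d₀) rAct (isBimod d₀) (PT XT (D → A0)) (PT (PT XT (D → A0)) (D → A0))
    pt pt _ _ (exists_stdComplex (isBimod d₀))
  have h2 := h1.2.closure_eq
  have h3 := one_mem_closure d₀
  rw [h2] at h3
  exact one_not_mem d₀ h3

end

end Pool.Agent.Helper5
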